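import Pool.Agent.D0H10.Q4.StmA
import Pool.Agent.Y699.Qe
import Pool.Agent.Y699.Pd

/-!
Project Q4: the character at the primary primes.
-/

set_option autoImplicit false
set_option linter.unusedSectionVars false

namespace Pool.Agent.D0H69.Q4

open H385 (ZI RQ im1 nrm)
open Pool.Agent.Y699
open Pool.Agent.W164.RC (tc_mul tc_star)
open Pool.Agent.H304R2.EC.A1 (prim norm_def')
open Pool.Agent.H304R3.HK (tc HC LH)
open Pool.Agent.D0H10.Q4 (S_SUP Cc rh)

lemma HC.neg_one {q : ZI} {X : ZI →* ℂ} (H : HC q X) : X (-1) = -1 := by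
  have e : (-1 : ZI) = ⟨0, 1⟩ * ⟨0, 1⟩ := by decide
  rw [e, map_mul, H.unit, neg_mul_neg, Complex.I_mul_I]

lemma HC.neg {q : ZI} {X : ZI →* ℂ} (H : HC q X) (a : ZI) : X (-a) = -X a := by
  have e : -a = (-1) * a := by ring
  rw [e, map_mul, HC.neg_one H]
  ring

lemma rh_neg {a : ZI} (h : a.im % 4 = 2) : rh (-a) = -rh a := by
  unfold rh
  have e : (-a).im = -a.im := rfl
  rw [e]
  have h1 : a.im / 2 % 4 = 1 ∨ a.im / 2 % 4 = 3 := by omega
  rcases h1 with h1 | h1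
  · have h2 : (-a.im) / 2 % 4 = 3 := by omega
    rw [h1, h2]
    decide
  · have h2 : (-a.im) / 2 % 4 = 1 := by omega
    rw [h1, h2]
    decide

lemma c4_neg {ι : Type} [DecidableEq ι] {pr : ι → ZI} (hp : PF pr) (V : Finset ι) (z : ZI) :
    c4 pr V on1 (-z) = (-1) ^ (∑ i ∈ V, wq (pr i)) * c4 pr V on1 z := by
  rw [c4_one_exp hp, c4_one_exp hp, ← Finset.prod_pow_eq_pow_sum, ← Finset.prod_mul_distrib]
  refine Finset.prod_congr rfl fun i _ => ?_
  have e : -z = (-1) * z := by ring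
  rw [e, q4_mul (hp.pp i), q4_neg_one (hp.pp i)]
  rfl

/-- the character at the primary primes -/
theorem X_prime (hS : S_SUP) (J : JJ) {Δ : ZI} (hΔ : PS Δ) {X : ZI →* ℂ} (H : HC (8 * Δ) X)
    (hX : ∀ a, Cc a → X a = (starRingEnd ℂ) (tc (rh a * c4 (fam Δ) Finset.univ on1 a)))
    {z : ZI} (hz : PP z) (hzD : ¬ z ∣ Δ) :
    X z = (starRingEnd ℂ) (tc (Y699.q4 z (-(2 * Δ)))) := by
  have hp := fam_PF hΔ.ne
  have hDD := hΔ.DD
  set V : Finset {π : ZI // π ∈ PD Δ} := Finset.univ with hV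
  have hne : ∀ i ∈ V, z ≠ fam Δ i := by
    intro i hi h
    apply hzD
    have h1 : fam Δ i ∣ DD (fam Δ) V := dvd_DD hi
    rw [hDD, ← h] at h1
    exact h1
  have e1 : -(2 * Δ) = (-2) * Δ := by ring
  have e2 : q4 z Δ = ∏ i ∈ V, q4 z (fam Δ i) := by
    have h1 : q4 z (DD (fam Δ) V) = ∏ i ∈ V, q4 z (fam Δ i) := by
      unfold DD
      exact q4_prod hz V (fam Δ)
    rw [hDD] at h1
    exact h1
  have e3 : q4 z Δ = c4 (fam Δ) V on1 z * ((-1) ^ (wq z)) ^ (∑ i ∈ V, wq (fam Δ i)) := by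
    rw [e2, c4_one_exp hp, ← pow_mul, Finset.mul_sum, ← Finset.prod_pow_eq_pow_sum,
      ← Finset.prod_mul_distrib]
    exact Finset.prod_congr rfl fun i hi => q4_rec J hz (hp.pp i) (hne i hi)
  have hw : ((-1 : ZI)) ^ (wq z) = ((wi z.im : ℤ) : ZI) := neg_one_w (norm_def' z) hz
  have h1 := hz.re_odd
  have h2 := hz.im_even
  have h3 : (z.re + z.im) % 4 = 1 := hz.prm.2
  rw [e1, q4_mul hz, hS z hz, e3, hw]
  by_cases h4 : z.re % 4 = 1
  · have h5 : z.im % 4 = 0 := by omega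
    rw [hX z ⟨h4, h2⟩]
    unfold wi
    rw [if_pos h5]
    simp
  · have h5 : z.im % 4 = 2 := by omega
    have h6 : Cc (-z) := by
      constructor
      · show (-z.re) % 4 = 1
        omega
      · show (-z.im) % 2 = 0
        omega
    have h7 : X z = -X (-z) := by rw [HC.neg H, neg_neg]
    rw [h7, hX (-z) h6, rh_neg h5, c4_neg hp]
    unfold wi
    rw [if_neg (by omega)]
    rw [← map_neg]
    congr 1
    have e5 : ∀ a : ZI, -tc a = tc (-a) := by
      intro a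
      unfold tc
      simp
      ring
    rw [e5]
    congr 1
    push_cast
    ring

end Pool.Agent.D0H69.Q4
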