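import Pool.Agent.Y715.Z.Lser
import Pool.Agent.H723R3.EuclidLocal

/-!
Project Q4: local factors at the places of additive reduction of `y² = x³ + δ x`.
-/

set_option autoImplicit false
set_option linter.unusedSectionVars false

open NumberField IsDedekindDomain

namespace Pool.Agent.D0H69.Q4

open WeierstrassCurve IsDiscreteValuationRing
open Pool.Agent.W189.NF (aV eV redMap Ov mem_max_iff redMap_eq_zero aLoc eLoc)
open Pool.Agent.Y715.Z (q4 q4_c₄ q4_j q4_Δ q4_map min_addj coe_comp' isUnit_of_notMem' val_int_le)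
open Pool.Agent.Y698 (v_unit)

section Local

variable (R : Type) [CommRing R] [IsDomain R] [IsDiscreteValuationRing R] {L : Type}
  [Field L] [Algebra R L] [IsFractionRing R L]

/-- no good reduction when the valuation of the discriminant is not divisible by twelve -/
theorem not_good_of_val {W : WeierstrassCurve L} {m : ℕ} (hm : ¬ 12 ∣ m)
    (hΔ : (maximalIdeal R).valuation L W.Δ = WithZero.exp (-(m : ℤ))) :
    ¬ (W.minimal R).HasGoodReduction R := by
  set v := (maximalIdeal R).valuation L with hv
  obtain ⟨C, hC⟩ : ∃ C : VariableChange L, W.minimal R = C • W := ⟨_, rfl⟩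
  set u : L := ((C.u⁻¹ : Lˣ) : L) with hu
  have hu0 : u ≠ 0 := (C.u⁻¹).ne_zero
  have hd : (W.minimal R).Δ = u ^ 12 * W.Δ := by rw [hC, variableChange_Δ]
  intro h
  have h1 := h.goodReduction
  rw [hd, map_mul, hΔ, map_pow] at h1
  have h2 : v u ≠ 0 := (Valuation.ne_zero_iff v).2 hu0
  obtain ⟨k, hk⟩ : ∃ k : ℤ, v u = WithZero.exp k := ⟨WithZero.log (v u), (WithZero.exp_log h2).symm⟩
  rw [hk, ← WithZero.exp_nsmul, ← WithZero.exp_add, WithZero.exp_eq_one] at h1
  simp only [nsmul_eq_mul] at h1
  push_cast at h1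
  omega

end Local

section places
variable {K : Type} [Field K] [NumberField K]

lemma valL_unit {v : HeightOneSpectrum (𝓞 K)} {x : 𝓞 K} (hx : x ∉ v.asIdeal) :
    (IsDiscreteValuationRing.maximalIdeal (v.adicCompletionIntegers K)).valuation
      (v.adicCompletion K) (algebraMap K (v.adicCompletion K) (x : K)) = 1 := by
  rw [← coe_comp']
  exact v_unit (v.adicCompletionIntegers K) (isUnit_of_notMem' hx)

/-- the valuation of a uniformizer in the completion -/
lemma valL_gen {v : HeightOneSpectrum (𝓞 K)} {t : 𝓞 K} (ht0 : t ≠ 0)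
    (ht : v.asIdeal = Ideal.span {t}) :
    (IsDiscreteValuationRing.maximalIdeal (v.adicCompletionIntegers K)).valuation
      (v.adicCompletion K) (algebraMap K (v.adicCompletion K) (t : K)) =
        WithZero.exp (-1 : ℤ) := by
  have hq : ((algebraMap (𝓞 K) (Ov v) t : Ov v) : v.adicCompletion K) =
      algebraMap K (v.adicCompletion K) (t : K) := coe_comp' v t
  have h1 : Valued.v (algebraMap K (v.adicCompletion K) (t : K)) = WithZero.exp (-1 : ℤ) := by
    rw [Pool.Agent.H723R3.valued_algebraMap]
    have h2 := HeightOneSpectrum.valuation_of_algebraMap (K := K) v t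
    rw [v.intValuation_singleton ht0 ht] at h2
    exact h2
  have hlt : ∀ x : Ov v, ¬ IsUnit x → Valued.v (x : v.adicCompletion K) ≤ WithZero.exp (-1 : ℤ) := by
    intro x hx
    have h2 := (mem_max_iff v x).1 ((IsLocalRing.mem_maximalIdeal x).2 hx)
    by_cases h0 : Valued.v (x : v.adicCompletion K) = 0
    · rw [h0]
      exact zero_le
    · obtain ⟨k, hk⟩ : ∃ k : ℤ, Valued.v (x : v.adicCompletion K) = WithZero.exp k :=
        ⟨WithZero.log _, (WithZero.exp_log h0).symm⟩
      rw [hk] at h2 ⊢
      rw [← WithZero.exp_zero, WithZero.exp_lt_exp] at h2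
      rw [WithZero.exp_le_exp]
      omega
  have hirr : Irreducible (algebraMap (𝓞 K) (Ov v) t : Ov v) := by
    constructor
    · intro hu
      have h2 := HeightOneSpectrum.adicCompletionIntegers.isUnit_iff_valued_eq_one.1 hu
      rw [hq, h1, WithZero.exp_eq_one] at h2
      omega
    · intro a b hab
      by_contra hcon
      push Not at hcon
      have h2 := mul_le_mul' (hlt a hcon.1) (hlt b hcon.2)
      have h3 : ((a * b : Ov v) : v.adicCompletion K) =
        (a : v.adicCompletion K) * (b : v.adicCompletion K) := rfl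
      rw [← map_mul, ← h3, ← hab, hq, h1, ← WithZero.exp_add, WithZero.exp_le_exp] at h2
      omega
  have h2 := (IsDiscreteValuationRing.irreducible_iff_uniformizer _).1 hirr
  have h3 := (IsDiscreteValuationRing.maximalIdeal (Ov v)).intValuation_singleton
    (r := (algebraMap (𝓞 K) (Ov v) t : Ov v)) (hirr.ne_zero) h2
  have h4 := (IsDiscreteValuationRing.maximalIdeal (Ov v)).valuation_of_algebraMap
    (K := v.adicCompletion K) (algebraMap (𝓞 K) (Ov v) t : Ov v)
  rw [h3] at h4
  refine Eq.trans ?_ h4
  congr 1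

/-- additive reduction: the discriminant is a power of a uniformizer times a unit -/
theorem bad_of4 {v : HeightOneSpectrum (𝓞 K)} {δ t r : 𝓞 K} (ht0 : t ≠ 0)
    (ht : v.asIdeal = Ideal.span {t}) {m : ℕ} (hm : ¬ 12 ∣ m) (hr : r ∉ v.asIdeal)
    (h : -64 * δ ^ 3 = t ^ m * r) : aV (q4 (δ : K)) v = 0 ∧ eV (q4 (δ : K)) v = 0 := by
  have hbc : (q4 (δ : K)).baseChange (v.adicCompletion K) =
      q4 (algebraMap K (v.adicCompletion K) (δ : K)) := q4_map _ _
  unfold aV eV
  rw [hbc]
  refine min_addj (v.adicCompletionIntegers K)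
    (not_good_of_val (v.adicCompletionIntegers K) hm ?_) (j := 1728) ?_ (q4_j _)
  · have h1 := congrArg (fun x : 𝓞 K => algebraMap K (v.adicCompletion K) (x : K)) h
    have e : (q4 (algebraMap K (v.adicCompletion K) (δ : K))).Δ =
        (algebraMap K (v.adicCompletion K) (t : K)) ^ m *
          algebraMap K (v.adicCompletion K) (r : K) := by
      rw [q4_Δ]
      simp only [map_mul, map_pow, map_neg, map_ofNat] at h1
      exact h1
    rw [e, map_mul, map_pow, valL_gen ht0 ht, valL_unit hr, mul_one, ← WithZero.exp_nsmul]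
    congr 1
    simp
  · have := val_int_le v (1728 : 𝓞 K)
    rw [show ((1728 : 𝓞 K) : K) = (1728 : K) from map_ofNat _ _, map_ofNat] at this
    exact this

end places

end Pool.Agent.D0H69.Q4
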