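import Pool.Agent.D0H10.Q4.StmB
import Pool.Agent.D0H69.Q4.Loc
import Pool.Agent.D0H69.Q4.Chr

/-!
Project Q4, module B4 KLS: the `L`-series of `y² = x³ + 2 Δ x` over `ℚ(i)`.
-/

set_option autoImplicit false
set_option linter.unusedSectionVars false

open NumberField IsDedekindDomain

namespace Pool.Agent.D0H69.Q4

open scoped Classical
open WeierstrassCurve
open Pool.Agent.Y699 hiding q4
open Pool.Agent.Y715.Z
open Pool.Agent.Y698 (AP min_count v_unit)
open Pool.Agent.W189.NF (aV eV redMap Ov mem_max_iff finite_res card_res redMap_eq_zero aLoc eLoc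
  redMap_surjective)
open Pool.Agent.H921R2.TatePole (nm two_le_nm)
open H385 (ZI RQ im1 nrm)
open Pool.Agent.W164.RC (tc_mul tc_star Ip Ip_spec)
open Pool.Agent.H304R3.HK (tc HC LH)
open Pool.Agent.H304R2.EC.A1 (prim)
open Pool.Agent.Y696 (HBd LSeries_hasProd')
open Pool.Agent.D0H10.Q4 (S_SUP S_KLS Cc rh cK)

section main

variable {K : Type} [Field K] [NumberField K] (e : ZI ≃+* 𝓞 K)

lemma pi1_pow : (-512 : ZI) = pi1 ^ 18 * im1 := by decide

lemma disc_eq (D : ZI) : (-64 : 𝓞 K) * e D ^ 3 = e (-64 * D ^ 3) := by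
  rw [map_mul e (-64 : ZI) (D ^ 3), map_pow, map_neg, map_ofNat]

lemma disc_eq' (D : ZI) : (-64 : 𝓞 K) * (e : ZI →+* 𝓞 K) D ^ 3 = e (-64 * D ^ 3) := disc_eq e D

lemma em0_eq (a : ZI) : em0 e a = ((e a : 𝓞 K) : K) := rfl

lemma X_zero {q : ZI} {X : ZI →* ℂ} (H : HC q X) {z : ZI} (hz : Prime z) (h : z ∣ q) : X z = 0 := by
  by_contra hne
  have h1 := (H.supp z).1 hne
  exact hz.not_isUnit ((isCoprime_self.1 (h1.of_isCoprime_of_dvd_right h)))

/-- the local factors at the bad places -/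
theorem locK_bad {Δ : ZI} (hΔ : PS Δ) (v : HeightOneSpectrum (𝓞 K))
    (hb : pg e v = pi1 ∨ pg e v ∣ Δ) :
    aV (q4 (em0 e (2 * Δ))) v = 0 ∧ eV (q4 (em0 e (2 * Δ))) v = 0 := by
  have hsp := pg_span e v
  set z := pg e v with hz
  have hzp : Prime z := pg_prime e v
  have ht0 : e z ≠ 0 := by
    rw [Ne, map_eq_zero_iff e e.injective]
    exact hzp.ne_zero
  rcases pg_cases e v with ⟨h1, h2⟩ | ⟨h1, h2⟩
  · have h2' : z = pi1 := h2
    refine bad_of4 (t := e z) (r := e (im1 * Δ ^ 3)) (m := 18) ht0 hsp (by norm_num) ?_ ?_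
    · rw [mem_iff e hsp, h2']
      intro h
      rcases pi1_prime.dvd_or_dvd h with h3 | h3
      · have h4 : pi1 ∣ (1 : ZI) := h3.trans ⟨-im1, by decide⟩
        exact pi1_prime.not_isUnit (isUnit_of_dvd_one h4)
      · exact pi1_prim hΔ.prm (pi1_prime.dvd_of_dvd_pow h3)
    · rw [disc_eq' e, ← map_pow, ← map_mul]
      congr 1
      rw [h2']
      linear_combination Δ ^ 3 * pi1_pow
  · have hPP : PP z := ⟨(Ip_spec (Pool.Agent.H921R2.TatePole.below v).2 h2).2.1,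
      (Ip_spec (Pool.Agent.H921R2.TatePole.below v).2 h2).1⟩
    have hzD : z ∣ Δ := by
      rcases hb with h | h
      · exfalso
        have := pi1_prim hPP.prm
        rw [h] at this
        exact this dvd_rfl
      · exact h
    obtain ⟨c, hc⟩ := hzD
    have hzc : ¬ z ∣ c := by
      rintro ⟨d, hd⟩
      have h3 : z * z ∣ Δ := ⟨d, by rw [hc, hd]; ring⟩
      exact hzp.not_isUnit (hΔ.sqf z h3)
    refine bad_of4 (t := e z) (r := e (-512 * c ^ 3)) (m := 3) ht0 hsp (by norm_num) ?_ ?_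
    · rw [mem_iff e hsp]
      intro h
      rcases hzp.dvd_or_dvd h with h3 | h3
      · have e5 : (-512 : ZI) = -(2 ^ 9) := by decide
        rw [e5, dvd_neg] at h3
        exact not_dvd_two hPP (hzp.dvd_of_dvd_pow h3)
      · exact hzc (hzp.dvd_of_dvd_pow h3)
    · rw [disc_eq' e, ← map_pow, ← map_mul]
      congr 1
      rw [hc]
      ring

/-- the local factors at the good places -/
theorem locK_good {Δ : ZI} (v : HeightOneSpectrum (𝓞 K)) (hPP : PP (pg e v))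
    (hzD : ¬ pg e v ∣ Δ) :
    (aV (q4 (em0 e (2 * Δ))) v : ℂ) =
        (starRingEnd ℂ) (tc (Y699.q4 (pg e v) (-(2 * Δ)))) * tc (pg e v) +
        tc (Y699.q4 (pg e v) (-(2 * Δ))) * (starRingEnd ℂ) (tc (pg e v)) ∧
      (eV (q4 (em0 e (2 * Δ))) v : ℂ) = (nm v : ℂ) ∧
      tc (Y699.q4 (pg e v) (-(2 * Δ))) * (starRingEnd ℂ) (tc (Y699.q4 (pg e v) (-(2 * Δ)))) = 1 ∧
      tc (pg e v) * (starRingEnd ℂ) (tc (pg e v)) = (nm v : ℂ) := by
  have hsp := pg_span e v
  set z := pg e v with hz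
  have hzp : Prime z := pg_prime e v
  set D : ZI := 2 * Δ with hD
  have hnD : ¬ z ∣ D := by
    intro h
    rcases hzp.dvd_or_dvd h with h3 | h3
    · exact not_dvd_two hPP h3
    · exact hzD h3
  have hbc : (q4 (em0 e D)).baseChange (v.adicCompletion K) =
      q4 (algebraMap K (v.adicCompletion K) (em0 e D)) := q4_map _ _
  have hΔ : ¬ (cr4 (e D)).Δ ∈ v.asIdeal := by
    rw [cr4_Δ]
    rw [disc_eq e, mem_iff e hsp]
    intro h
    rcases hzp.dvd_or_dvd h with h4 | h4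
    · have e5 : (-64 : ZI) = -(2 ^ 6) := by decide
      rw [e5, dvd_neg] at h4
      exact not_dvd_two hPP (hzp.dvd_of_dvd_pow h4)
    · exact hnD (hzp.dvd_of_dvd_pow h4)
  have hfin := finite_res v
  have hunit : IsUnit ((cr4 (algebraMap (𝓞 K) (Ov v) (e D))).Δ) := by
    have h3 := isUnit_of_notMem' hΔ
    rw [cr4_Δ] at h3 ⊢
    rw [map_mul, map_neg, map_ofNat, map_pow] at h3
    exact h3
  obtain ⟨c1, c2⟩ := min_count (v.adicCompletionIntegers K) hunit
    (W := (q4 (em0 e D)).baseChange (v.adicCompletion K)) (by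
      rw [hbc, cr4_mapL, coe_comp']
      rfl)
  have hAP : Nat.card (AP ((cr4 (algebraMap (𝓞 K) (Ov v) (e D))).map
      (IsLocalRing.residue (Ov v)))) = cnt4 v (Ideal.Quotient.mk v.asIdeal (e D)) := by
    unfold cnt4 AP
    refine (Nat.card_congr (Equiv.subtypeEquiv
      (Equiv.prodCongr (resE v).toEquiv (resE v).toEquiv) fun x => ?_)).symm
    rw [cr4_map, WeierstrassCurve.Affine.equation_iff]
    unfold cr4
    simp only [zero_mul, add_zero]
    show _ ↔ (resE v x.2) ^ 2 = (resE v x.1) ^ 3 + (redMap v (e D)) * resE v x.1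
    rw [← resE_mk, ← map_pow, ← map_pow, ← map_mul, ← map_add, (resE v).injective.eq_iff]
  have ha : aV (q4 (em0 e D)) v = (nm v : ℤ) -
      (cnt4 v (Ideal.Quotient.mk v.asIdeal (e D)) : ℤ) := by
    unfold aV
    rw [c1, hAP, card_res]
  have he : eV (q4 (em0 e D)) v = (nm v : ℤ) := by
    unfold eV
    rw [c2, card_res]
  have hnm : nm v = Ideal.absNorm v.asIdeal := rfl
  have h3 := congrArg tc (cnt4_good e hPP hsp hnD)
  rw [tc_int, tc_add] at h3
  have hnd : ¬ z ∣ -D := fun h => hnD ((dvd_neg).1 h)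
  set q : ZI := Pool.Agent.Y699.q4 z (-D) with hq
  have h4 : tc q * (starRingEnd ℂ) (tc q) = 1 := by
    rw [← tc_star, ← tc_mul, unit_star_mul (q4_norm hPP hnd), tc_one]
  have h5 : tc z * tc (star z) = ((Ideal.absNorm v.asIdeal : ℕ) : ℂ) := by
    rw [norm_pg e hsp, ← tc_mul, ← Zsqrtd.norm_eq_mul_conj, ← nrm_cast]
    unfold tc
    simp
  refine ⟨?_, ?_, h4, ?_⟩
  · rw [ha, hnm, h3, tc_mul, tc_mul, tc_star, tc_star]
  · rw [he]
    push_cast
    rfl
  · rw [← tc_star, hnm]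
    exact h5

/-- the local factors -/
theorem locK (hS : S_SUP) {Δ : ZI} (hΔ : PS Δ) {X : ZI →* ℂ} (H : HC (8 * Δ) X)
    (hX : ∀ a, Cc a → X a = (starRingEnd ℂ) (tc (rh a * c4 (fam Δ) Finset.univ on1 a)))
    (v : HeightOneSpectrum (𝓞 K)) (s : ℂ) :
    HBd (aV (q4 (em0 e (2 * Δ))) v) (eV (q4 (em0 e (2 * Δ))) v) (nm v) ∧
      (1 - (aV (q4 (em0 e (2 * Δ))) v : ℂ) * (nm v : ℂ) ^ (-s) +
        (eV (q4 (em0 e (2 * Δ))) v : ℂ) * ((nm v : ℂ) ^ (-s)) ^ 2)⁻¹ = g1 X e s v * g2 X e s v := by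
  by_cases hb : pg e v = pi1 ∨ pg e v ∣ Δ
  · have h0 := locK_bad e hΔ v hb
    refine ⟨Or.inl h0, ?_⟩
    have hX0 : X (pg e v) = 0 := by
      apply X_zero H (pg_prime e v)
      rcases hb with h | h
      · rw [h]
        exact (pi1_two.trans ⟨4, by norm_num⟩).mul_right _
      · exact h.mul_left _
    rw [h0.1, h0.2]
    unfold g1 g2
    rw [hX0]
    simp
  · push Not at hb
    have hPP : PP (pg e v) := by
      rcases pg_cases e v with ⟨h1, h2⟩ | ⟨h1, h2⟩
      · exact absurd h2 hb.1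
      · exact ⟨(Ip_spec (Pool.Agent.H921R2.TatePole.below v).2 h2).2.1,
          (Ip_spec (Pool.Agent.H921R2.TatePole.below v).2 h2).1⟩
    obtain ⟨h1, h2, h3, h4⟩ := locK_good e v hPP hb.2
    have hXz := X_prime hS (JJ_of e) hΔ H hX hPP hb.2
    set q := Pool.Agent.Y699.q4 (pg e v) (-(2 * Δ)) with hq
    constructor
    · refine Or.inr ⟨(starRingEnd ℂ) (tc q) * tc (pg e v), ?_, ?_, ?_⟩
      · rw [h1, map_mul, Complex.conj_conj]
      · rw [h2, map_mul, Complex.conj_conj]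
        linear_combination (-(nm v : ℂ)) * h3 - (tc q * (starRingEnd ℂ) (tc q)) * h4
      · rw [map_mul, Complex.conj_conj]
        linear_combination ((nm v : ℂ)) * h3 + (tc q * (starRingEnd ℂ) (tc q)) * h4
    · unfold g1 g2
      rw [hXz, Complex.conj_conj, tc_star, ← mul_inv, h1, h2]
      congr 1
      have hnm : ((Ideal.absNorm v.asIdeal : ℕ) : ℂ) = (nm v : ℂ) := rfl
      rw [hnm]
      linear_combination (-((nm v : ℂ) ^ (-s)) ^ 2 * (nm v : ℂ)) * h3 -
        (((nm v : ℂ) ^ (-s)) ^ 2 * tc q * (starRingEnd ℂ) (tc q)) * h4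

end main

/-- **the `L`-series over the Gaussian field** -/
theorem kls : S_SUP → S_KLS := by
  intro hS K _ _ e Δ hΔ X H hX s hs
  obtain ⟨h1, h2⟩ := LSeries_hasProd' (cK e Δ) (fun v => (locK e hS hΔ H hX v s).1) hs
  refine ⟨h1, ?_⟩
  have hX0 : X pi1 = 0 := X_zero H pi1_prime ((pi1_two.trans ⟨4, by norm_num⟩).mul_right _)
  have h3 := (g1_hasProd H hX0 e hs).mul (g2_hasProd H hX0 e hs)
  exact h3.unique (h2.congr_fun fun v => ((locK e hS hΔ H hX v s).2).symm)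

end Pool.Agent.D0H69.Q4
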