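import Pool.Agent.D0H69.Q4.Kls
import Pool.Agent.Y715.Z.Min

/-!
Project Q4, block D: the reduction of `y² = x³ + D x` at `1 + i` when `D` has even real part and odd
imaginary part.
-/

set_option autoImplicit false
set_option linter.unusedSectionVars false

open NumberField IsDedekindDomain

namespace Pool.Agent.D0H69.Q4

open scoped Classical
open WeierstrassCurve WithZero
open Pool.Agent.Y682 (vv vv_coe)
open Pool.Agent.Y699 hiding q4
open Pool.Agent.Y715.Z
open Pool.Agent.W189.NF (aV eV Ov)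
open H385 (ZI RQ im1 nrm)

section loc

variable {L : Type} [Field L] {v : Valuation L ℤᵐ⁰}

/-- a change of variables with a factor in the maximal ideal -/
lemma change2 {D u r s t : L} (hu : u ≠ 0) (hu1 : v u ≤ exp (-1 : ℤ)) (hD : v D = 1)
    (h2 : v 2 = exp (-2 : ℤ))
    (h1' : v (u⁻¹ * (2 * s)) ≤ 1)
    (h3' : v (u⁻¹ ^ 3 * (2 * t)) ≤ 1) (h4' : v (u⁻¹ ^ 4 * (D + 3 * r ^ 2 - 2 * s * t)) ≤ 1)
    (hno : ∀ x : L, v x = 1 → v (D + 3 * x ^ 2) ≤ exp (-2 : ℤ) → False) : False := by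
  have hvu : v u ≠ 0 := (Valuation.ne_zero_iff _).2 hu
  have hpos : 0 < v u := zero_lt_iff.2 hvu
  have hlt : (exp (-1 : ℤ) : ℤᵐ⁰) < 1 := by rw [← exp_zero, exp_lt_exp]; norm_num
  have hcl : ∀ (n : ℕ) (x : L), v (u⁻¹ ^ n * x) ≤ 1 → v x ≤ v u ^ n := by
    intro n x hx
    rw [map_mul, map_pow, map_inv₀, inv_pow] at hx
    have h5 : v x = v u ^ n * ((v u ^ n)⁻¹ * v x) := by
      rw [← mul_assoc, mul_inv_cancel₀ (pow_ne_zero n hvu), one_mul]
    rw [h5]
    exact mul_le_of_le_one_right' hx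
  have k3 : v (2 * t) ≤ v u ^ 3 := hcl 3 _ h3'
  have k4 : v (D + 3 * r ^ 2 - 2 * s * t) ≤ v u ^ 4 := hcl 4 _ h4'
  have k1 : v (2 * s) ≤ v u := by
    have := hcl 1 (2 * s) (by rwa [pow_one])
    rwa [pow_one] at this
  have h4e : v u ^ 4 ≤ exp (-2 : ℤ) := by
    calc v u ^ 4 ≤ (exp (-1 : ℤ)) ^ 4 := by gcongr
      _ = exp (-4 : ℤ) := by rw [← exp_nsmul]; rfl
      _ ≤ exp (-2 : ℤ) := by rw [exp_le_exp]; norm_num
  have h3e : v u ^ 3 ≤ exp (-3 : ℤ) := by
    calc v u ^ 3 ≤ (exp (-1 : ℤ)) ^ 3 := by gcongr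
      _ = exp (-3 : ℤ) := by rw [← exp_nsmul]; rfl
  -- `t` and `s`
  have ht : v t ≤ exp (-1 : ℤ) := by
    have h5 : exp (-2 : ℤ) * v t ≤ exp (-3 : ℤ) := by
      rw [← h2, ← map_mul]
      exact k3.trans h3e
    have h7 : v t = exp (2 : ℤ) * (exp (-2 : ℤ) * v t) := by
      rw [← mul_assoc, ← exp_add]; norm_num
    rw [h7]
    calc exp (2 : ℤ) * (exp (-2 : ℤ) * v t) ≤ exp (2 : ℤ) * exp (-3 : ℤ) := by gcongr
      _ = exp (-1 : ℤ) := by rw [← exp_add]; norm_num
  have hst2 : v (2 * s * t) ≤ exp (-2 : ℤ) := by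
    rw [map_mul]
    calc v (2 * s) * v t ≤ exp (-1 : ℤ) * exp (-1 : ℤ) := by
          exact mul_le_mul' (k1.trans hu1) ht
      _ = exp (-2 : ℤ) := by rw [← exp_add]; norm_num
  have hst : v (2 * s * t) < 1 := by
    refine lt_of_le_of_lt hst2 ?_
    rw [← exp_zero, exp_lt_exp]; norm_num
  have hu4 : v u ^ 4 < 1 := pow_lt_one₀ zero_le (lt_of_le_of_lt hu1 hlt) (by norm_num)
  have h3 : v (3 : L) = 1 := by
    have e3 : (3 : L) = 1 + 2 := by norm_num
    rw [e3, Valuation.map_add_eq_of_lt_left, map_one]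
    rw [map_one, h2, ← exp_zero, exp_lt_exp]
    norm_num
  -- `r` is a unit
  have hr : v r = 1 := by
    rcases lt_trichotomy (v r) 1 with h5 | h5 | h5
    · exfalso
      have h7 : v (D + 3 * r ^ 2 - 2 * s * t) = 1 := by
        have h8 : v (D + 3 * r ^ 2) = 1 := by
          rw [Valuation.map_add_eq_of_lt_left, hD]
          rw [hD, map_mul, h3, one_mul, map_pow]
          exact pow_lt_one₀ zero_le h5 two_ne_zero
        rw [Valuation.map_sub_eq_of_lt_left, h8]
        rw [h8]; exact hst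
      rw [h7] at k4
      exact absurd k4 (not_le.2 hu4)
    · exact h5
    · exfalso
      have h7 : v (D + 3 * r ^ 2 - 2 * s * t) = v r ^ 2 := by
        have h9 : v (3 * r ^ 2) = v r ^ 2 := by rw [map_mul, h3, one_mul, map_pow]
        have h10 : 1 < v r ^ 2 := one_lt_pow₀ h5 two_ne_zero
        have h8 : v (D + 3 * r ^ 2) = v r ^ 2 := by
          rw [Valuation.map_add_eq_of_lt_right, h9]
          rw [hD, h9]; exact h10
        rw [Valuation.map_sub_eq_of_lt_left, h8]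
        rw [h8]; exact hst.trans h10
      rw [h7] at k4
      exact absurd (one_lt_pow₀ h5 two_ne_zero) (not_lt.2 (k4.trans hu4.le))
  refine hno r hr ?_
  have e1 : D + 3 * r ^ 2 = (D + 3 * r ^ 2 - 2 * s * t) + 2 * s * t := by ring
  rw [e1]
  exact (Valuation.map_add _ _ _).trans (max_le (k4.trans h4e) hst2)

end loc

section glob

variable {K : Type} [Field K] [NumberField K] (e : ZI ≃+* 𝓞 K)

/-- the congruence modulo two -/
lemma no_two {D : ZI} (hre : D.re % 2 = 0)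
    {x : (plc e pi1_prime).adicCompletion K} (hx : vv (plc e pi1_prime) x = 1)
    (h : vv (plc e pi1_prime) (ph e pi1_prime (em0 e D) + 3 * x ^ 2) ≤ exp (-2 : ℤ)) : False := by
  obtain ⟨a, ha⟩ := approx e pi1_prime hx.le 1 (by norm_num)
  set w := vv (plc e pi1_prime) with hw
  set ψ := ph e pi1_prime with hψ
  have ha2 : w (x - ψ (em0 e a)) ≤ exp (-2 : ℤ) := lt_exp ha
  have hlt : (exp (-2 : ℤ) : ℤᵐ⁰) < 1 := by rw [← exp_zero, exp_lt_exp]; norm_num
  have ha1 : w (ψ (em0 e a)) = 1 := by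
    have e1 : ψ (em0 e a) = x - (x - ψ (em0 e a)) := by ring
    rw [e1, Valuation.map_sub_eq_of_lt_left, hx]
    rw [hx]
    exact ha2.trans_lt hlt
  have hodd : ¬ pi1 ∣ a := by
    intro hd
    have h3 : (plc e pi1_prime).valuation K (em0 e a) ≤ exp (-((1 : ℕ) : ℤ)) :=
      (val_pow_le e pi1_prime a 1).2 (by rwa [pow_one])
    rw [hw, hψ, vv_coe] at ha1
    rw [ha1, ← exp_zero, exp_le_exp] at h3
    norm_num at h3
  have h5 : w (ψ (em0 e (D + 3 * a ^ 2))) ≤ exp (-2 : ℤ) := by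
    have e1 : ψ (em0 e (D + 3 * a ^ 2)) = (ψ (em0 e D) + 3 * x ^ 2) -
        3 * ((x - ψ (em0 e a)) * (x + ψ (em0 e a))) := by
      simp only [map_add, map_mul, map_pow, map_ofNat]
      ring
    rw [e1]
    refine (Valuation.map_sub _ _ _).trans (max_le h ?_)
    have h3 : w (3 : (plc e pi1_prime).adicCompletion K) ≤ 1 := by
      have e3 : (3 : (plc e pi1_prime).adicCompletion K) = ψ (em0 e 3) := by
        simp only [map_ofNat]
      rw [e3, hw, hψ, vv_coe]
      exact val_le e pi1_prime 3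
    rw [map_mul, map_mul]
    have h4 : w (x + ψ (em0 e a)) ≤ 1 :=
      (Valuation.map_add _ _ _).trans (max_le hx.le ha1.le)
    calc w 3 * (w (x - ψ (em0 e a)) * w (x + ψ (em0 e a)))
        ≤ 1 * (exp (-2 : ℤ) * 1) := mul_le_mul' h3 (mul_le_mul' ha2 h4)
      _ = exp (-2 : ℤ) := by rw [one_mul, mul_one]
  rw [hw, hψ, vv_coe] at h5
  have h6 : pi1 ^ 2 ∣ D + 3 * a ^ 2 := (val_pow_le e pi1_prime _ 2).1 h5
  have h7 : (2 : ZI) ∣ D + 3 * a ^ 2 := by
    refine dvd_trans ⟨im1, by decide⟩ h6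
  obtain ⟨c, hc⟩ := h7
  have hpa : ¬ (a.re + a.im) % 2 = 0 := by
    intro h8
    apply hodd
    refine ⟨⟨(a.re + a.im) / 2, (a.im - a.re) / 2⟩, ?_⟩
    have h9 : (a.im - a.re) % 2 = 0 := by omega
    apply Zsqrtd.ext
    · simp [pi1]
      omega
    · simp [pi1]
      omega
  have hre2 := congrArg Zsqrtd.re hc
  have e2 : (D + 3 * a ^ 2).re = D.re + 3 * (a.re * a.re - a.im * a.im) := by
    simp [pow_two]
    ring
  have e3 : (2 * c).re = 2 * c.re := by simp
  rw [e2, e3] at hre2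
  rcases Int.emod_two_eq_zero_or_one a.re with h8 | h8 <;>
    rcases Int.emod_two_eq_zero_or_one a.im with h9 | h9
  · omega
  · obtain ⟨b, hb⟩ : ∃ b, a.re = 2 * b := ⟨a.re / 2, by omega⟩
    obtain ⟨d, hd⟩ : ∃ d, a.im = 2 * d + 1 := ⟨a.im / 2, by omega⟩
    rw [hb, hd] at hre2
    ring_nf at hre2
    omega
  · obtain ⟨b, hb⟩ : ∃ b, a.re = 2 * b + 1 := ⟨a.re / 2, by omega⟩
    obtain ⟨d, hd⟩ : ∃ d, a.im = 2 * d := ⟨a.im / 2, by omega⟩
    rw [hb, hd] at hre2
    ring_nf at hre2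
    omega
  · omega

/-- bad reduction above two -/
theorem bad_two {D : ZI} (hre : D.re % 2 = 0) (him : D.im % 2 = 1) :
    ∀ v : HeightOneSpectrum (𝓞 K), v = plc e pi1_prime →
      aV (q4 (em0 e D)) v = 0 ∧ eV (q4 (em0 e D)) v = 0 := by
  rintro v rfl
  have hbc : (q4 (em0 e D)).baseChange ((plc e pi1_prime).adicCompletion K) =
      q4 (algebraMap K ((plc e pi1_prime).adicCompletion K) (em0 e D)) := q4_map _ _
  unfold aV eV
  rw [hbc]
  refine min_addj ((plc e pi1_prime).adicCompletionIntegers K) ?_ (j := 1728) ?_ (q4_j _)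
  · intro hg
    set R := (plc e pi1_prime).adicCompletionIntegers K with hR
    set L := (plc e pi1_prime).adicCompletion K with hL
    set w := vv (plc e pi1_prime) with hw
    set W := q4 (algebraMap K L (em0 e D)) with hW
    obtain ⟨C, hC⟩ : ∃ C : VariableChange L, W.minimal R = C • W := ⟨_, rfl⟩
    have hint : WeierstrassCurve.IsIntegral R (W.minimal R) := inferInstance
    obtain ⟨⟨W₀, hW₀⟩⟩ := hint
    have hiv : ∀ a : R, w (algebraMap R L a) ≤ 1 := fun a =>
      (HeightOneSpectrum.mem_adicCompletionIntegers (𝓞 K) K (plc e pi1_prime)).1 a.2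
    have hgd := hg.goodReduction
    have hΔ0 : (W.minimal R).Δ = algebraMap R L W₀.Δ := by
      rw [hW₀]
      exact WeierstrassCurve.map_Δ _ _
    rw [hΔ0] at hgd
    have hun : IsUnit W₀.Δ := by
      have h1 := (IsDiscreteValuationRing.maximalIdeal R).valuation_of_algebraMap (K := L) W₀.Δ
      rw [h1] at hgd
      by_contra hnu
      have h2 : W₀.Δ ∈ IsLocalRing.maximalIdeal R := (IsLocalRing.mem_maximalIdeal _).2 hnu
      have h3 := ((IsDiscreteValuationRing.maximalIdeal R).intValuation_lt_one_iff_mem W₀.Δ).2 h2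
      rw [hgd] at h3
      exact lt_irrefl _ h3
    have hw1 : w (W.minimal R).Δ = 1 := by
      rw [hΔ0]
      exact HeightOneSpectrum.adicCompletionIntegers.isUnit_iff_valued_eq_one.1 hun
    obtain ⟨u, hu'⟩ : ∃ u : L, u = ((C.u : _ˣ) : L) := ⟨_, rfl⟩
    have hu0 : u ≠ 0 := by rw [hu']; exact C.u.ne_zero
    have huinv : ((C.u⁻¹ : _ˣ) : L) = u⁻¹ := by
      rw [Units.val_inv_eq_inv_val, hu']
    have hv2 : w (2 : L) = exp (-2 : ℤ) := by
      have h3 : (2 : L) = ph e pi1_prime 2 := (map_ofNat _ 2).symm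
      rw [h3, hw, vv_coe, val_two1]
    have hpD : ¬ pi1 ∣ D := by
      rintro ⟨c, hc⟩
      have h1 := congrArg Zsqrtd.re hc
      have h2 := congrArg Zsqrtd.im hc
      simp [pi1] at h1 h2
      omega
    have hD' : w (ph e pi1_prime (em0 e D)) = 1 := by
      rw [hw, vv_coe]
      exact val_one e pi1_prime hpD
    have hwu : w u ≠ 0 := (Valuation.ne_zero_iff _).2 hu0
    have hu1 : w u ≤ exp (-1 : ℤ) := by
      have h1 : (W.minimal R).Δ = u⁻¹ ^ 12 * (-64 * ph e pi1_prime (em0 e D) ^ 3) := by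
        rw [hC, WeierstrassCurve.variableChange_Δ, huinv, hW, q4_Δ]
      rw [h1, map_mul, map_mul, map_pow, map_pow, hD', one_pow, mul_one, map_inv₀] at hw1
      have h64 : w (-64 : L) = exp (-12 : ℤ) := by
        have : (-64 : L) = -(2 ^ 6) := by norm_num
        rw [this, Valuation.map_neg, map_pow, hv2, ← exp_nsmul]
        rfl
      rw [h64] at hw1
      obtain ⟨k, hk⟩ : ∃ k : ℤ, w u = exp k := ⟨log (w u), (exp_log hwu).symm⟩
      rw [hk, ← exp_neg, ← exp_nsmul, ← exp_add, exp_eq_one] at hw1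
      simp only [nsmul_eq_mul] at hw1
      push_cast at hw1
      rw [hk, exp_le_exp]
      omega
    have hWm : ∀ a : L, (∃ a₀ : R, a = algebraMap R L a₀) → w a ≤ 1 := by
      rintro a ⟨a₀, rfl⟩
      exact hiv a₀
    have b1 : w (C • W).a₁ ≤ 1 := by
      rw [← hC, hW₀]; exact hiv _
    have b3 : w (C • W).a₃ ≤ 1 := by
      rw [← hC, hW₀]; exact hiv _
    have b4 : w (C • W).a₄ ≤ 1 := by
      rw [← hC, hW₀]; exact hiv _
    refine change2 (v := w) (D := ph e pi1_prime (em0 e D)) (r := C.r) (s := C.s) (t := C.t)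
      hu0 hu1 hD' hv2 ?_ ?_ ?_ ?_
    · rw [WeierstrassCurve.variableChange_a₁, huinv] at b1
      simpa [hW, q4] using b1
    · rw [WeierstrassCurve.variableChange_a₃, huinv] at b3
      simpa [hW, q4] using b3
    · rw [WeierstrassCurve.variableChange_a₄, huinv] at b4
      simpa [hW, q4] using b4
    · intro x hx h
      exact no_two e hre hx h
  · have := val_int_le (plc e pi1_prime) (1728 : 𝓞 K)
    rw [show ((1728 : 𝓞 K) : K) = (1728 : K) from map_ofNat _ _, map_ofNat] at this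
    exact this

end glob

end Pool.Agent.D0H69.Q4
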