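import Pool.Agent.D0H43.Q4.Stm2
import Pool.Agent.D0H69.Q4.Two

/-!
Project Q4, module D1.10 LS1: the `L`-series of `y² = x³ + i ^ σ Δ x`, `σ` odd, over `ℚ(i)`.
-/

set_option autoImplicit false
set_option linter.unusedSectionVars false

open NumberField IsDedekindDomain

namespace Pool.Agent.D0H69.Q4

open scoped Classical
open WeierstrassCurve
open Pool.Agent.Y699 hiding q4 wi
open Pool.Agent.Y715.Z
open Pool.Agent.Y698 (AP min_count v_unit)
open Pool.Agent.W189.NF (aV eV redMap Ov mem_max_iff finite_res card_res redMap_eq_zero aLoc eLoc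
  redMap_surjective)
open Pool.Agent.H921R2.TatePole (nm two_le_nm)
open H385 (ZI RQ im1 nrm)
open Pool.Agent.W164.RC (tc_mul tc_star Ip Ip_spec)
open Pool.Agent.H304R3.HK (tc HC LH)
open Pool.Agent.H304R2.EC.A1 (prim)
open Pool.Agent.Y696 (HBd LSeries_hasProd')
open Pool.Agent.D0H43.Q4 (S_LS1 cI sg wi)

lemma norm_im1_pow (n : ℕ) : (im1 ^ n : ZI).norm = 1 := by
  induction n with
  | zero => rw [pow_zero]; exact Zsqrtd.norm_one
  | succ k ih =>
    have h1 : (im1 : ZI).norm = 1 := by decide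
    rw [pow_succ, Zsqrtd.norm_mul, ih, h1, one_mul]

/-- the character at the primary primes -/
theorem X_prime1 (σ : ℕ) (J : JJ) {Δ : ZI} (hΔ : PS Δ) {X : ZI →* ℂ}
    (hX : ∀ a, prim a → X a =
      (starRingEnd ℂ) (tc (wi (sg σ Δ) a * c4 (fam Δ) Finset.univ on1 a)))
    {z : ZI} (hz : PP z) (hzD : ¬ z ∣ Δ) :
    X z = (starRingEnd ℂ) (tc (Y699.q4 z (-(im1 ^ σ * Δ)))) := by
  have hp := fam_PF hΔ.ne
  have hDD := hΔ.DD
  rw [hX z hz.prm]
  congr 2
  have hS : sg σ Δ = σ + 2 + 2 * ∑ i : {π : ZI // π ∈ PD Δ}, wq (fam Δ i) := rfl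
  rw [hS]
  clear hS hX
  set V : Finset {π : ZI // π ∈ PD Δ} := Finset.univ with hV
  have hne : ∀ i ∈ V, z ≠ fam Δ i := by
    intro i hi h
    apply hzD
    have h1 : fam Δ i ∣ DD (fam Δ) V := dvd_DD hi
    rw [hDD, ← h] at h1
    exact h1
  have e2 : Y699.q4 z Δ = ∏ i ∈ V, Y699.q4 z (fam Δ i) := by
    have h1 : Y699.q4 z (DD (fam Δ) V) = ∏ i ∈ V, Y699.q4 z (fam Δ i) := by
      unfold DD
      exact q4_prod hz V (fam Δ)
    rw [hDD] at h1
    exact h1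
  have e3 : Y699.q4 z Δ = c4 (fam Δ) V on1 z * ((-1) ^ (wq z)) ^ (∑ i ∈ V, wq (fam Δ i)) := by
    rw [e2, c4_one_exp hp, ← pow_mul, Finset.mul_sum, ← Finset.prod_pow_eq_pow_sum,
      ← Finset.prod_mul_distrib]
    exact Finset.prod_congr rfl fun i hi => q4_rec J hz (hp.pp i) (hne i hi)
  have h2 : (im1 : ZI) ^ 2 = -1 := by rw [pow_two, im1_sq']
  have h1 : -(im1 ^ σ * Δ) = im1 ^ (σ + 2) * Δ := by
    rw [pow_add, h2]
    ring
  rw [h1, q4_mul hz, e3, q4_unit hz (norm_im1_pow _)]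
  unfold wi
  have e5 : (im1 : ZI) ^ ((σ + 2 + 2 * ∑ i ∈ V, wq (fam Δ i)) * wq z) =
      im1 ^ (wq z * (σ + 2)) * ((-1) ^ (wq z)) ^ (∑ i ∈ V, wq (fam Δ i)) := by
    rw [← h2, ← pow_mul, ← pow_mul, ← pow_add]
    congr 1
    ring
  have e6 : (im1 : ZI) ^ (wq z * (σ + 2)) = (im1 ^ (σ + 2)) ^ (nrm z / 4) := by
    rw [← pow_mul, mul_comm (wq z)]
    rfl
  rw [e5, e6]
  ring

section main

variable {K : Type} [Field K] [NumberField K] (e : ZI ≃+* 𝓞 K)

/-- additive reduction at an odd prime dividing `D` exactly once -/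
theorem bad_odd {D : ZI} (v : HeightOneSpectrum (𝓞 K)) (hPP : PP (pg e v))
    (hd : pg e v ∣ D) (hsq : ¬ pg e v * pg e v ∣ D) :
    aV (q4 (em0 e D)) v = 0 ∧ eV (q4 (em0 e D)) v = 0 := by
  have hsp := pg_span e v
  set z := pg e v with hz
  have hzp : Prime z := pg_prime e v
  have ht0 : e z ≠ 0 := by
    rw [Ne, map_eq_zero_iff e e.injective]
    exact hzp.ne_zero
  obtain ⟨c, hc⟩ := hd
  have hzc : ¬ z ∣ c := by
    rintro ⟨d, hd⟩
    exact hsq ⟨d, by rw [hc, hd]; ring⟩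
  refine bad_of4 (t := e z) (r := e (-64 * c ^ 3)) (m := 3) ht0 hsp (by norm_num) ?_ ?_
  · rw [mem_iff e hsp]
    intro h
    rcases hzp.dvd_or_dvd h with h3 | h3
    · have e5 : (-64 : ZI) = -(2 ^ 6) := by decide
      rw [e5, dvd_neg] at h3
      exact not_dvd_two hPP (hzp.dvd_of_dvd_pow h3)
    · exact hzc (hzp.dvd_of_dvd_pow h3)
  · rw [disc_eq' e, ← map_pow, ← map_mul]
    congr 1
    rw [hc]
    ring

/-- the local factors at the good places -/
theorem good_odd {D : ZI} (v : HeightOneSpectrum (𝓞 K)) (hPP : PP (pg e v))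
    (hnD : ¬ pg e v ∣ D) :
    (aV (q4 (em0 e D)) v : ℂ) =
        (starRingEnd ℂ) (tc (Y699.q4 (pg e v) (-D))) * tc (pg e v) +
        tc (Y699.q4 (pg e v) (-D)) * (starRingEnd ℂ) (tc (pg e v)) ∧
      (eV (q4 (em0 e D)) v : ℂ) = (nm v : ℂ) ∧
      tc (Y699.q4 (pg e v) (-D)) * (starRingEnd ℂ) (tc (Y699.q4 (pg e v) (-D))) = 1 ∧
      tc (pg e v) * (starRingEnd ℂ) (tc (pg e v)) = (nm v : ℂ) := by
  have hsp := pg_span e v
  set z := pg e v with hz
  have hzp : Prime z := pg_prime e v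
  have hbc : (q4 (em0 e D)).baseChange (v.adicCompletion K) =
      q4 (algebraMap K (v.adicCompletion K) (em0 e D)) := q4_map _ _
  have hΔ : ¬ (cr4 (e D)).Δ ∈ v.asIdeal := by
    rw [cr4_Δ]
    rw [disc_eq e, mem_iff e hsp]
    intro h
    rcases hzp.dvd_or_dvd h with h4 | h4
    · have e5 : (-64 : ZI) = -(2 ^ 6) := by decide
      rw [e5, dvd_neg] at h4
      exact not_dvd_two hPP (hzp.dvd_of_dvd_pow h4)
    · exact hnD (hzp.dvd_of_dvd_pow h4)
  have hfin := finite_res v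
  have hunit : IsUnit ((cr4 (algebraMap (𝓞 K) (Ov v) (e D))).Δ) := by
    have h3 := isUnit_of_notMem' hΔ
    rw [cr4_Δ] at h3 ⊢
    rw [map_mul, map_neg, map_ofNat, map_pow] at h3
    exact h3
  obtain ⟨c1, c2⟩ := min_count (v.adicCompletionIntegers K) hunit
    (W := (q4 (em0 e D)).baseChange (v.adicCompletion K)) (by
      rw [hbc, cr4_mapL, coe_comp']
      rfl)
  have hAP : Nat.card (AP ((cr4 (algebraMap (𝓞 K) (Ov v) (e D))).map
      (IsLocalRing.residue (Ov v)))) = cnt4 v (Ideal.Quotient.mk v.asIdeal (e D)) := by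
    unfold cnt4 AP
    refine (Nat.card_congr (Equiv.subtypeEquiv
      (Equiv.prodCongr (resE v).toEquiv (resE v).toEquiv) fun x => ?_)).symm
    rw [cr4_map, WeierstrassCurve.Affine.equation_iff]
    unfold cr4
    simp only [zero_mul, add_zero]
    show _ ↔ (resE v x.2) ^ 2 = (resE v x.1) ^ 3 + (redMap v (e D)) * resE v x.1
    rw [← resE_mk, ← map_pow, ← map_pow, ← map_mul, ← map_add, (resE v).injective.eq_iff]
  have ha : aV (q4 (em0 e D)) v = (nm v : ℤ) -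
      (cnt4 v (Ideal.Quotient.mk v.asIdeal (e D)) : ℤ) := by
    unfold aV
    rw [c1, hAP, card_res]
  have he : eV (q4 (em0 e D)) v = (nm v : ℤ) := by
    unfold eV
    rw [c2, card_res]
  have hnm : nm v = Ideal.absNorm v.asIdeal := rfl
  have h3 := congrArg tc (cnt4_good e hPP hsp hnD)
  rw [tc_int, tc_add] at h3
  have hnd : ¬ z ∣ -D := fun h => hnD ((dvd_neg).1 h)
  set q : ZI := Pool.Agent.Y699.q4 z (-D) with hq
  have h4 : tc q * (starRingEnd ℂ) (tc q) = 1 := by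
    rw [← tc_star, ← tc_mul, unit_star_mul (q4_norm hPP hnd), tc_one]
  have h5 : tc z * tc (star z) = ((Ideal.absNorm v.asIdeal : ℕ) : ℂ) := by
    rw [norm_pg e hsp, ← tc_mul, ← Zsqrtd.norm_eq_mul_conj, ← nrm_cast]
    unfold tc
    simp
  refine ⟨?_, ?_, h4, ?_⟩
  · rw [ha, hnm, h3, tc_mul, tc_mul, tc_star, tc_star]
  · rw [he]
    push_cast
    rfl
  · rw [← tc_star, hnm]
    exact h5

lemma odd_twist {σ : ℕ} (hσ : σ % 2 = 1) {Δ : ZI} (hΔ : prim Δ) :
    (im1 ^ σ * Δ).re % 2 = 0 ∧ (im1 ^ σ * Δ).im % 2 = 1 := by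
  obtain ⟨k, rfl⟩ : ∃ k, σ = 2 * k + 1 := ⟨σ / 2, by omega⟩
  have h1 := hΔ.1
  have h2 := hΔ.2
  have h3 : (im1 ^ (2 * k + 1) : ZI) = im1 ∨ (im1 ^ (2 * k + 1) : ZI) = -im1 := by
    have h2 : (im1 : ZI) ^ 2 = -1 := by rw [pow_two, im1_sq']
    rw [pow_add, pow_mul, h2, pow_one]
    rcases neg_one_pow_eq_or ZI k with h | h <;> rw [h]
    · left; ring
    · right; ring
  rcases h3 with h3 | h3 <;> rw [h3] <;> constructor <;> simp [im1] <;> omega

/-- the local factors -/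
theorem locK1 {σ : ℕ} (hσ : σ % 2 = 1) {Δ : ZI} (hΔ : PS Δ) {X : ZI →* ℂ} (H : HC (8 * Δ) X)
    (hX : ∀ a, prim a → X a =
      (starRingEnd ℂ) (tc (wi (sg σ Δ) a * c4 (fam Δ) Finset.univ on1 a)))
    (v : HeightOneSpectrum (𝓞 K)) (s : ℂ) :
    HBd (aV (q4 (em0 e (im1 ^ σ * Δ))) v) (eV (q4 (em0 e (im1 ^ σ * Δ))) v) (nm v) ∧
      (1 - (aV (q4 (em0 e (im1 ^ σ * Δ))) v : ℂ) * (nm v : ℂ) ^ (-s) +
        (eV (q4 (em0 e (im1 ^ σ * Δ))) v : ℂ) * ((nm v : ℂ) ^ (-s)) ^ 2)⁻¹ =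
          g1 X e s v * g2 X e s v := by
  have hu : IsUnit (im1 ^ σ : ZI) := (IsUnit.of_mul_eq_one (-im1) (by decide)).pow σ
  have hdv : ∀ a : ZI, a ∣ im1 ^ σ * Δ ↔ a ∣ Δ := fun a => hu.dvd_mul_left
  by_cases hb : pg e v = pi1 ∨ pg e v ∣ Δ
  · have h0 : aV (q4 (em0 e (im1 ^ σ * Δ))) v = 0 ∧ eV (q4 (em0 e (im1 ^ σ * Δ))) v = 0 := by
      rcases pg_cases e v with ⟨h1, h2⟩ | ⟨h1, h2⟩
      · have h3 := odd_twist hσ hΔ.prm
        refine bad_two e h3.1 h3.2 v ?_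
        apply HeightOneSpectrum.ext
        show v.asIdeal = Ideal.span {e pi1}
        rw [← h2]
        exact pg_span e v
      · have hPP : PP (pg e v) := ⟨(Ip_spec (Pool.Agent.H921R2.TatePole.below v).2 h2).2.1,
          (Ip_spec (Pool.Agent.H921R2.TatePole.below v).2 h2).1⟩
        have hzD : pg e v ∣ Δ := by
          rcases hb with h | h
          · exfalso
            have := pi1_prim hPP.prm
            rw [h] at this
            exact this dvd_rfl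
          · exact h
        refine bad_odd e v hPP ((hdv _).2 hzD) ?_
        rw [hdv]
        intro h3
        exact (pg_prime e v).not_isUnit (hΔ.sqf _ h3)
    refine ⟨Or.inl h0, ?_⟩
    have hX0 : X (pg e v) = 0 := by
      apply X_zero H (pg_prime e v)
      rcases hb with h | h
      · rw [h]
        exact (pi1_two.trans ⟨4, by norm_num⟩).mul_right _
      · exact h.mul_left _
    rw [h0.1, h0.2]
    unfold g1 g2
    rw [hX0]
    simp
  · push Not at hb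
    have hPP : PP (pg e v) := by
      rcases pg_cases e v with ⟨h1, h2⟩ | ⟨h1, h2⟩
      · exact absurd h2 hb.1
      · exact ⟨(Ip_spec (Pool.Agent.H921R2.TatePole.below v).2 h2).2.1,
          (Ip_spec (Pool.Agent.H921R2.TatePole.below v).2 h2).1⟩
    obtain ⟨h1, h2, h3, h4⟩ := good_odd e v hPP (fun h => hb.2 ((hdv _).1 h))
    have hXz := X_prime1 σ (JJ_of e) hΔ hX hPP hb.2
    set q := Pool.Agent.Y699.q4 (pg e v) (-(im1 ^ σ * Δ)) with hq
    constructor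
    · refine Or.inr ⟨(starRingEnd ℂ) (tc q) * tc (pg e v), ?_, ?_, ?_⟩
      · rw [h1, map_mul, Complex.conj_conj]
      · rw [h2, map_mul, Complex.conj_conj]
        linear_combination (-(nm v : ℂ)) * h3 - (tc q * (starRingEnd ℂ) (tc q)) * h4
      · rw [map_mul, Complex.conj_conj]
        linear_combination ((nm v : ℂ)) * h3 + (tc q * (starRingEnd ℂ) (tc q)) * h4
    · unfold g1 g2
      rw [hXz, Complex.conj_conj, tc_star, ← mul_inv, h1, h2]
      congr 1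
      have hnm : ((Ideal.absNorm v.asIdeal : ℕ) : ℂ) = (nm v : ℂ) := rfl
      rw [hnm]
      linear_combination (-((nm v : ℂ) ^ (-s)) ^ 2 * (nm v : ℂ)) * h3 -
        (((nm v : ℂ) ^ (-s)) ^ 2 * tc q * (starRingEnd ℂ) (tc q)) * h4

end main

/-- **the `L`-series over the Gaussian field** -/
theorem ls1 : S_LS1 := by
  intro σ hσ K _ _ e Δ hΔ X H hX s hs
  obtain ⟨h1, h2⟩ := LSeries_hasProd' (cI e σ Δ) (fun v => (locK1 e hσ hΔ H hX v s).1) hs
  refine ⟨h1, ?_⟩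
  have hX0 : X pi1 = 0 := X_zero H pi1_prime ((pi1_two.trans ⟨4, by norm_num⟩).mul_right _)
  have h3 := (g1_hasProd H hX0 e hs).mul (g2_hasProd H hX0 e hs)
  exact h3.unique (h2.congr_fun fun v => ((locK1 e hσ hΔ H hX v s).2).symm)

end Pool.Agent.D0H69.Q4
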