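import Pool.Agent.D0H69.Q4.Ls1

/-!
Project Q4: the `L`-series of `y² = x³ + D x` over `ℚ(i)`, general form.
-/

set_option autoImplicit false
set_option linter.unusedSectionVars false

open NumberField IsDedekindDomain

namespace Pool.Agent.D0H69.Q4

open scoped Classical
open WeierstrassCurve
open Pool.Agent.Y699 hiding q4 wi
open Pool.Agent.Y715.Z
open Pool.Agent.W189.NF (aV eV)
open Pool.Agent.H921R2.TatePole (nm two_le_nm)
open H385 (ZI RQ im1 nrm)
open Pool.Agent.W164.RC (tc_mul tc_star Ip Ip_spec)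
open Pool.Agent.H304R3.HK (tc HC LH)
open Pool.Agent.H304R2.EC.A1 (prim)
open Pool.Agent.Y696 (HBd LSeries_hasProd')

section main

variable {K : Type} [Field K] [NumberField K] (e : ZI ≃+* 𝓞 K)

/-- the symbol of `i ^ n Δ` at a primary prime -/
theorem q4_twist (J : JJ) {Δ : ZI} (hΔ : PS Δ) (n : ℕ) {z : ZI} (hz : PP z) (hzD : ¬ z ∣ Δ) :
    Y699.q4 z (im1 ^ n * Δ) = im1 ^ ((n + 2 * ∑ i : {π : ZI // π ∈ PD Δ}, wq (fam Δ i)) * wq z) *
      c4 (fam Δ) Finset.univ on1 z := by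
  have hp := fam_PF hΔ.ne
  have hDD := hΔ.DD
  set V : Finset {π : ZI // π ∈ PD Δ} := Finset.univ with hV
  have hne : ∀ i ∈ V, z ≠ fam Δ i := by
    intro i hi h
    apply hzD
    have h1 : fam Δ i ∣ DD (fam Δ) V := dvd_DD hi
    rw [hDD, ← h] at h1
    exact h1
  have e2 : Y699.q4 z Δ = ∏ i ∈ V, Y699.q4 z (fam Δ i) := by
    have h1 : Y699.q4 z (DD (fam Δ) V) = ∏ i ∈ V, Y699.q4 z (fam Δ i) := by
      unfold DD
      exact q4_prod hz V (fam Δ)
    rw [hDD] at h1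
    exact h1
  have e3 : Y699.q4 z Δ = c4 (fam Δ) V on1 z * ((-1) ^ (wq z)) ^ (∑ i ∈ V, wq (fam Δ i)) := by
    rw [e2, c4_one_exp hp, ← pow_mul, Finset.mul_sum, ← Finset.prod_pow_eq_pow_sum,
      ← Finset.prod_mul_distrib]
    exact Finset.prod_congr rfl fun i hi => q4_rec J hz (hp.pp i) (hne i hi)
  have h2 : (im1 : ZI) ^ 2 = -1 := by rw [pow_two, im1_sq']
  rw [q4_mul hz, e3, q4_unit hz (norm_im1_pow _)]
  have e5 : (im1 : ZI) ^ ((n + 2 * ∑ i ∈ V, wq (fam Δ i)) * wq z) =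
      im1 ^ (wq z * n) * ((-1) ^ (wq z)) ^ (∑ i ∈ V, wq (fam Δ i)) := by
    rw [← h2, ← pow_mul, ← pow_mul, ← pow_add]
    congr 1
    ring
  have e6 : (im1 : ZI) ^ (wq z * n) = (im1 ^ n) ^ (nrm z / 4) := by
    rw [← pow_mul, mul_comm (wq z)]
    rfl
  rw [e5, e6]
  ring

/-- **the `L`-series, general form** -/
theorem ls_gen {D f : ZI} {X : ZI →* ℂ} (H : HC f X) (h1 : ∀ z, PP z → z ∣ D → ¬ z * z ∣ D)
    (h2 : ∀ z, PP z → z ∣ D → z ∣ f) (h3 : pi1 ∣ f)
    (h4 : ∀ v : HeightOneSpectrum (𝓞 K), v = plc e pi1_prime →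
      aV (q4 (em0 e D)) v = 0 ∧ eV (q4 (em0 e D)) v = 0)
    (h5 : ∀ z, PP z → ¬ z ∣ D → X z = (starRingEnd ℂ) (tc (Y699.q4 z (-D)))) (s : ℂ)
    (hs : 3 / 2 < s.re) :
    LSeriesSummable ((fun n : ℤ => (n : ℂ)) ∘ (q4 (em0 e D)).LFunction) s ∧
      LG X s = (q4 (em0 e D)).LSeries s := by
  have key : ∀ (v : HeightOneSpectrum (𝓞 K)) (s : ℂ),
      HBd (aV (q4 (em0 e D)) v) (eV (q4 (em0 e D)) v) (nm v) ∧
      (1 - (aV (q4 (em0 e D)) v : ℂ) * (nm v : ℂ) ^ (-s) +
        (eV (q4 (em0 e D)) v : ℂ) * ((nm v : ℂ) ^ (-s)) ^ 2)⁻¹ = g1 X e s v * g2 X e s v := by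
    intro v s
    by_cases hb : pg e v = pi1 ∨ pg e v ∣ D
    · have h0 : (aV (q4 (em0 e D)) v = 0 ∧ eV (q4 (em0 e D)) v = 0) ∧ pg e v ∣ f := by
        rcases pg_cases e v with ⟨g1, g2⟩ | ⟨g1, g2⟩
        · have g2' : pg e v = pi1 := g2
          refine ⟨h4 v ?_, by rw [g2']; exact h3⟩
          apply HeightOneSpectrum.ext
          show v.asIdeal = Ideal.span {e pi1}
          rw [← g2']
          exact pg_span e v
        · have hPP : PP (pg e v) := ⟨(Ip_spec (Pool.Agent.H921R2.TatePole.below v).2 g2).2.1,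
            (Ip_spec (Pool.Agent.H921R2.TatePole.below v).2 g2).1⟩
          have hzD : pg e v ∣ D := by
            rcases hb with h | h
            · exfalso
              have := pi1_prim hPP.prm
              rw [h] at this
              exact this dvd_rfl
            · exact h
          exact ⟨bad_odd e v hPP hzD (h1 _ hPP hzD), h2 _ hPP hzD⟩
      refine ⟨Or.inl h0.1, ?_⟩
      have hX0 : X (pg e v) = 0 := X_zero H (pg_prime e v) h0.2
      rw [h0.1.1, h0.1.2]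
      unfold g1 g2
      rw [hX0]
      simp
    · push Not at hb
      have hPP : PP (pg e v) := by
        rcases pg_cases e v with ⟨g1, g2⟩ | ⟨g1, g2⟩
        · exact absurd g2 hb.1
        · exact ⟨(Ip_spec (Pool.Agent.H921R2.TatePole.below v).2 g2).2.1,
            (Ip_spec (Pool.Agent.H921R2.TatePole.below v).2 g2).1⟩
      obtain ⟨k1, k2, k3, k4⟩ := good_odd e v hPP hb.2
      have hXz := h5 _ hPP hb.2
      set q := Pool.Agent.Y699.q4 (pg e v) (-D) with hq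
      constructor
      · refine Or.inr ⟨(starRingEnd ℂ) (tc q) * tc (pg e v), ?_, ?_, ?_⟩
        · rw [k1, map_mul, Complex.conj_conj]
        · rw [k2, map_mul, Complex.conj_conj]
          linear_combination (-(nm v : ℂ)) * k3 - (tc q * (starRingEnd ℂ) (tc q)) * k4
        · rw [map_mul, Complex.conj_conj]
          linear_combination ((nm v : ℂ)) * k3 + (tc q * (starRingEnd ℂ) (tc q)) * k4
      · unfold g1 g2
        rw [hXz, Complex.conj_conj, tc_star, ← mul_inv, k1, k2]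
        congr 1
        have hnm : ((Ideal.absNorm v.asIdeal : ℕ) : ℂ) = (nm v : ℂ) := rfl
        rw [hnm]
        linear_combination (-((nm v : ℂ) ^ (-s)) ^ 2 * (nm v : ℂ)) * k3 -
          (((nm v : ℂ) ^ (-s)) ^ 2 * tc q * (starRingEnd ℂ) (tc q)) * k4
  obtain ⟨k1, k2⟩ := LSeries_hasProd' (q4 (em0 e D)) (fun v => (key v s).1) hs
  refine ⟨k1, ?_⟩
  have hX0 : X pi1 = 0 := X_zero H pi1_prime h3
  have k3 := (g1_hasProd H hX0 e hs).mul (g2_hasProd H hX0 e hs)
  exact k3.unique (k2.congr_fun fun v => ((key v s).2).symm)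

/-- the reduction above two when `D` is divisible by `1 + i` exactly `b` times, `b` prime to four -/
theorem bad_two_of {D c : ZI} {b : ℕ} (hb : ¬ 4 ∣ b) (hD : D = pi1 ^ b * c) (hc : ¬ pi1 ∣ c) :
    ∀ v : HeightOneSpectrum (𝓞 K), v = plc e pi1_prime →
      aV (q4 (em0 e D)) v = 0 ∧ eV (q4 (em0 e D)) v = 0 := by
  rintro v rfl
  have hsp : (plc e pi1_prime).asIdeal = Ideal.span {e pi1} := rfl
  have ht0 : e pi1 ≠ 0 := by
    rw [Ne, map_eq_zero_iff e e.injective]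
    exact pi1_prime.ne_zero
  refine bad_of4 (t := e pi1) (r := e (c ^ 3)) (m := 12 + 3 * b) ht0 hsp (by omega) ?_ ?_
  · rw [mem_iff e hsp]
    intro h
    exact hc (pi1_prime.dvd_of_dvd_pow h)
  · rw [disc_eq' e, ← map_pow, ← map_mul]
    congr 1
    have h64 : (-64 : ZI) = pi1 ^ 12 := by decide
    rw [hD, h64]
    ring

end main

end Pool.Agent.D0H69.Q4
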