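import Pool.Agent.D0H43.Q4.Stm5
import Pool.Agent.D0H69.Q4.Gen

/-!
Project Q4, module D3.3 LSO: the `L`-series of `y² = x³ + i ^ σ (1 + i) Δ x` over `ℚ(i)`.
-/

set_option autoImplicit false
set_option linter.unusedSectionVars false

open NumberField IsDedekindDomain

namespace Pool.Agent.D0H69.Q4

open scoped Classical
open WeierstrassCurve
open Pool.Agent.Y699 hiding q4 wi
open Pool.Agent.Y715.Z
open H385 (ZI RQ im1 nrm)
open Pool.Agent.H304R3.HK (tc HC LH)
open Pool.Agent.H304R2.EC.A1 (prim)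
open Pool.Agent.D0H43.Q4 (S_SUPL S_LSO cO sg wo l1 f7 xl)

lemma isUnit_im1_pow (n : ℕ) : IsUnit (im1 ^ n : ZI) :=
  (IsUnit.of_mul_eq_one (-im1) (by decide)).pow n

lemma pp_l1 {z : ZI} (hz : PP z) : ¬ z ∣ l1 := by
  intro h
  have h2 : l1 ∣ (2 : ZI) := ⟨⟨1, -1⟩, by decide⟩
  exact not_dvd_two hz (h.trans h2)

/-- **the `L`-series, `b = 1`** -/
theorem lso : S_SUPL → S_LSO := by
  intro hS σ K _ _ e Δ hΔ X H hX s hs
  have hdv : ∀ z, PP z → (z ∣ im1 ^ σ * l1 * Δ ↔ z ∣ Δ) := by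
    intro z hz
    constructor
    · intro h
      rcases hz.pr.dvd_or_dvd h with h | h
      · rcases hz.pr.dvd_or_dvd h with h | h
        · exact absurd (isUnit_of_dvd_unit h (isUnit_im1_pow σ)) hz.pr.not_isUnit
        · exact absurd h (pp_l1 hz)
      · exact h
    · intro h
      exact h.mul_left _
  refine ls_gen e (D := im1 ^ σ * l1 * Δ) H ?_ ?_ ?_ ?_ ?_ s hs
  · intro z hz h1 h2
    obtain ⟨c, hc⟩ := (hdv z hz).1 h1
    have h3 : z ∣ im1 ^ σ * l1 * c := by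
      obtain ⟨d, hd⟩ := h2
      refine ⟨d, mul_left_cancel₀ hz.pr.ne_zero ?_⟩
      rw [← mul_assoc z z d, ← hd, hc]
      ring
    have h4 : z ∣ c := by
      rcases hz.pr.dvd_or_dvd h3 with h | h
      · rcases hz.pr.dvd_or_dvd h with h | h
        · exact absurd (isUnit_of_dvd_unit h (isUnit_im1_pow σ)) hz.pr.not_isUnit
        · exact absurd h (pp_l1 hz)
      · exact h
    apply hz.pr.not_isUnit
    apply hΔ.sqf z
    rw [hc]
    exact mul_dvd_mul_left z h4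
  · intro z hz h
    exact ((hdv z hz).1 h).mul_left _
  · exact Dvd.dvd.mul_right (⟨8, by decide⟩ : pi1 ∣ f7) Δ
  · refine bad_two_of e (b := 1) (c := im1 ^ σ * Δ) (by norm_num) ?_ ?_
    · have : l1 = pi1 := rfl
      rw [this]
      ring
    · intro h
      rcases pi1_prime.dvd_or_dvd h with h | h
      · exact pi1_prime.not_isUnit (isUnit_of_dvd_unit h (isUnit_im1_pow σ))
      · exact pi1_prim hΔ.prm h
  · intro z hz hzD
    have hzΔ : ¬ z ∣ Δ := fun h => hzD ((hdv z hz).2 h)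
    rw [hX z hz.prm]
    congr 2
    have e1 : -(im1 ^ σ * l1 * Δ) = l1 * (im1 ^ (σ + 2) * Δ) := by
      have h2 : (im1 : ZI) ^ 2 = -1 := by rw [pow_two, im1_sq']
      rw [pow_add, h2]
      ring
    have hS' : sg σ Δ = σ + 2 + 2 * ∑ i : {π : ZI // π ∈ PD Δ}, wq (fam Δ i) := rfl
    rw [e1, q4_mul hz, q4_twist (JJ_of e) hΔ (σ + 2) hz hzΔ, hS z hz, hS']
    unfold wo
    rw [pow_add]
    ring

end Pool.Agent.D0H69.Q4
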