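import Pool.Agent.D0H10.Q4.StmC
import Pool.Agent.D0H69.Q4.Kls
import Pool.Agent.TH402.AK.Gauss

/-!
Project Q4: rational integers as Gaussian integers, the places of `ℚ`, counting points over the prime
fields.
-/

set_option autoImplicit false
set_option linter.unusedSectionVars false

open NumberField IsDedekindDomain

namespace Pool.Agent.D0H69.Q4

open H385 (ZI RQ im1 nrm)
open Pool.Agent.Y699
open Pool.Agent.W164.RC (Ip Ip_spec Ip_one Ip_three)
open Pool.Agent.H304R2.EC.A1 (prim)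
open Pool.Agent.D0H10.Q4 (Adm)
open Pool.Agent.H921R2.TatePole (nm two_le_nm)

/-- all the Jacobi sums are known -/
theorem jj : JJ := JJ_of Pool.Agent.TH402.AK.e

lemma nsq_mul {x y z : ZI} (hx : PP x) (hy : PP y) (hne : x ≠ y) (hz : Prime z) :
    ¬ z * z ∣ x * y := by
  intro h
  rcases hz.dvd_or_dvd ((dvd_mul_right z z).trans h) with h1 | h1
  · have h2 : x ∣ z := ((hz.dvd_prime_iff_associated hx.pr).1 h1).symm.dvd
    have h3 : x * x ∣ x * y := (mul_dvd_mul h2 h2).trans h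
    exact hne (hx.eq_of_dvd hy ((mul_dvd_mul_iff_left hx.ne).1 h3))
  · have h2 : y ∣ z := ((hz.dvd_prime_iff_associated hy.pr).1 h1).symm.dvd
    have h3 : y * y ∣ y * x := by
      rw [mul_comm y x]
      exact (mul_dvd_mul h2 h2).trans h
    exact hne (hy.eq_of_dvd hx ((mul_dvd_mul_iff_left hy.ne).1 h3)).symm

lemma prod_mod {s : Finset ℕ} (h : ∀ p ∈ s, p % 4 = 1) : (∏ p ∈ s, p) % 4 = 1 := by
  induction s using Finset.induction_on with
  | empty => rfl
  | insert a s ha ih =>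
    rw [Finset.prod_insert ha, Nat.mul_mod, h a (Finset.mem_insert_self a s),
      ih fun p hp => h p (Finset.mem_insert_of_mem hp)]

lemma Adm.mod {m : ℕ} (h : Adm m) : m % 4 = 1 := by
  rw [← Nat.prod_primeFactors_of_squarefree h.1]
  exact prod_mod h.2

/-- admissible numbers are squarefree and primary -/
theorem ps_nat {m : ℕ} (h : Adm m) : PS (m : ZI) := by
  have hm := Adm.mod h
  refine ⟨?_, ?_⟩
  · show ((m : ZI)).im % 2 = 0 ∧ ((m : ZI).re + (m : ZI).im) % 4 = 1
    rw [Zsqrtd.im_natCast, Zsqrtd.re_natCast]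
    omega
  · have hm0 : (m : ZI) ≠ 0 := by
      have : m ≠ 0 := by omega
      exact_mod_cast this
    rw [squarefree_iff_irreducible_sq_not_dvd_of_ne_zero hm0]
    intro z hz hzz
    have hzp : Prime z := hz.prime
    have h1 : z ∣ ((m : ℕ) : ZI) := (dvd_mul_right z z).trans hzz
    have h2 : ∃ p ∈ m.primeFactors, z ∣ ((p : ℕ) : ZI) := by
      rw [← Nat.prod_primeFactors_of_squarefree h.1, Nat.cast_prod] at h1
      exact (hzp.dvd_finsetProd_iff _).1 h1
    obtain ⟨p, hp, hzp'⟩ := h2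
    have hpp := Nat.prime_of_mem_primeFactors hp
    obtain ⟨c, hc⟩ := Nat.dvd_of_mem_primeFactors hp
    have hcop : Nat.Coprime p c := by
      have := h.1
      rw [hc] at this
      exact (Nat.squarefree_mul_iff.1 this).1
    have hzc : ¬ z ∣ ((c : ℕ) : ZI) := by
      intro h3
      have h4 : IsCoprime ((p : ℕ) : ℤ) ((c : ℕ) : ℤ) := Nat.isCoprime_iff_coprime.2 hcop
      obtain ⟨a, b, hab⟩ := h4
      apply hzp.not_isUnit
      apply isUnit_of_dvd_one
      have h5 : (1 : ZI) = (a : ZI) * ((p : ℕ) : ZI) + (b : ZI) * ((c : ℕ) : ZI) := by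
        have := congrArg (Int.cast : ℤ → ZI) hab
        push_cast at this
        exact this.symm
      rw [h5]
      exact dvd_add (hzp'.mul_left _) (h3.mul_left _)
    have h3 : z ^ 2 ∣ ((p : ℕ) : ZI) * ((c : ℕ) : ZI) := by
      rw [sq, ← Nat.cast_mul, ← hc]
      exact hzz
    have h4 := hzp.pow_dvd_of_dvd_mul_right 2 hzc h3
    obtain ⟨x, hne, hxp, hxx, hn, hI⟩ := Ip_one hpp (h.2 p hp)
    have hPx : PP x := PP_ip hpp (by rw [hI]; simp)
    rw [sq, ← hxx] at h4
    exact nsq_mul hPx hPx.star (by simpa using hne) hzp h4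

/-- the prime number of a place of `ℚ` -/
noncomputable def eQ : HeightOneSpectrum (𝓞 ℚ) ≃ Nat.Primes := Rat.HeightOneSpectrum.primesEquiv

theorem eQ_nm (v : HeightOneSpectrum (𝓞 ℚ)) : nm v = (eQ v : ℕ) := by
  have h1 : (eQ v : ℕ) = Rat.HeightOneSpectrum.natGenerator v := rfl
  have h2 := Rat.HeightOneSpectrum.span_natGenerator v
  have h3 : Ideal.absNorm v.asIdeal =
      Ideal.absNorm (v.asIdeal.map (Rat.IsIntegralClosure.intEquiv (𝓞 ℚ))) := by
    rw [Ideal.absNorm_apply, Ideal.absNorm_apply, Submodule.cardQuot_apply, Submodule.cardQuot_apply]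
    exact Nat.card_congr (Ideal.quotientEquiv v.asIdeal _ (Rat.IsIntegralClosure.intEquiv (𝓞 ℚ)) rfl).toEquiv
  unfold nm
  rw [h1, h3, ← h2, Ideal.absNorm_span_singleton]
  simp

theorem eQ_span (v : HeightOneSpectrum (𝓞 ℚ)) :
    v.asIdeal = Ideal.span {(((eQ v : ℕ)) : 𝓞 ℚ)} := by
  have h2 := Rat.HeightOneSpectrum.span_natGenerator v
  have h1 : (eQ v : ℕ) = Rat.HeightOneSpectrum.natGenerator v := rfl
  have h3 := congrArg (Ideal.map (Rat.IsIntegralClosure.intEquiv (𝓞 ℚ)).symm) h2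
  rw [Ideal.map_span, Set.image_singleton, map_natCast] at h3
  rw [h1, h3]
  have h4 := Ideal.map_of_equiv (I := v.asIdeal) (Rat.IsIntegralClosure.intEquiv (𝓞 ℚ))
  exact h4.symm

lemma eQ_mem (v : HeightOneSpectrum (𝓞 ℚ)) (n : ℤ) :
    ((n : ℤ) : 𝓞 ℚ) ∈ v.asIdeal ↔ ((eQ v : ℕ) : ℤ) ∣ n := by
  rw [eQ_span, Ideal.mem_span_singleton]
  constructor
  · intro h
    have h1 := map_dvd (Rat.IsIntegralClosure.intEquiv (𝓞 ℚ)) h
    rw [map_natCast, map_intCast] at h1
    exact_mod_cast h1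
  · rintro ⟨c, hc⟩
    exact ⟨(c : 𝓞 ℚ), by rw [hc]; push_cast; rfl⟩

/-- the number of points over a finite field -/
noncomputable def cnf (k : Type) [Field k] (d : k) : ℕ :=
  Nat.card {x : k × k // x.2 ^ 2 = x.1 ^ 3 + d * x.1}

lemma cnf_congr {k F : Type} [Field k] [Field F] (f : k ≃+* F) (d : k) : cnf k d = cnf F (f d) := by
  unfold cnf
  refine Nat.card_congr (Equiv.subtypeEquiv (Equiv.prodCongr f.toEquiv f.toEquiv) fun x => ?_)
  show _ ↔ (f x.2) ^ 2 = (f x.1) ^ 3 + f d * f x.1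
  rw [← map_pow, ← map_pow, ← map_mul, ← map_add, f.injective.eq_iff]

/-- supersingular primes -/
theorem cnf_three {k : Type} [Field k] [Finite k] (h3 : Nat.card k % 4 = 3) (d : k) :
    cnf k d = Nat.card k := by
  classical
  let _ : Fintype k := Fintype.ofFinite k
  have hc : Fintype.card k % 4 = 3 := by rwa [← Nat.card_eq_fintype_card]
  have hchar : ringChar k ≠ 2 := by
    intro h
    have h1 := FiniteField.even_card_iff_char_two.1 h
    omega
  have h1 := Pool.Agent.H82R3.EK.card_points hchar (fun x : k => x ^ 3 + d * x)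
  have h2 : quadraticChar k (-1) = -1 := by
    rw [quadraticChar_neg_one hchar, ZMod.χ₄_nat_three_mod_four hc]
  have h4 : ∑ x : k, quadraticChar k (x ^ 3 + d * x) = 0 := by
    have h5 : ∑ x : k, quadraticChar k (x ^ 3 + d * x) =
        -∑ x : k, quadraticChar k (x ^ 3 + d * x) := by
      conv_lhs => rw [← Equiv.sum_comp (Equiv.neg k)]
      rw [← Finset.sum_neg_distrib]
      refine Finset.sum_congr rfl fun x _ => ?_
      have e : (Equiv.neg k x) ^ 3 + d * (Equiv.neg k x) = (-1) * (x ^ 3 + d * x) := by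
        rw [Equiv.neg_apply]
        ring
      rw [e, map_mul, h2]
      ring
    omega
  rw [h4, add_zero] at h1
  unfold cnf
  rw [Nat.card_eq_fintype_card (α := k)]
  exact_mod_cast h1

/-- ordinary primes -/
theorem cnf_one {k : Type} [Field k] [Finite k] {z : ZI} (hz : PP z) {p : ℕ}
    (hn : nrm z = p) (hk : Nat.card k = p) (n : ℤ) (hzn : ¬ z ∣ (n : ZI)) :
    (((p : ℤ) - cnf k ((n : ℤ) : k) : ℤ) : ZI) =
      star (q4 z (-(n : ZI))) * z + q4 z (-(n : ZI)) * star z := by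
  classical
  let _ : Fintype k := Fintype.ofFinite k
  obtain ⟨F, i1, i2, i3, ρ, h, hJ⟩ := jj z hz
  have hkF : Fintype.card k = Fintype.card F := by
    rw [h.card, hn, ← hk, Nat.card_eq_fintype_card]
  let f : k ≃+* F := FiniteField.ringEquivOfCardEq hkF
  rw [cnf_congr f, map_intCast]
  have c1 := Pool.Agent.H82R3.EK.card_points h.char_ne (fun x : F => x ^ 3 + (n : F) * x)
  have hd : (n : F) = ρ (n : ZI) := by rw [map_intCast]
  have hd0 : -(n : F) ≠ 0 := by
    rw [neg_ne_zero, hd, Ne, h.ker]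
    exact hzn
  have e1 : (cnf F (n : F) : ℤ) = (Fintype.card F : ℤ) +
      ∑ x : F, quadraticChar F (x ^ 3 - (-(n : F)) * x) := by
    unfold cnf
    rw [c1]
    simp_rw [neg_mul, sub_neg_eq_add]
  have h2 := h.sum_twist hd0
  have e2 : h.chi (-(n : F)) = q4 z (-(n : ZI)) := by
    rw [hd, ← map_neg, h.chi_map]
  rw [hJ, e2] at h2
  rw [e1, h.card, hn]
  have e4 : ((((p : ℤ)) - ((p : ℤ) +
      ∑ x : F, quadraticChar F (x ^ 3 - (-(n : F)) * x)) : ℤ) : ZI) =
      -((∑ x : F, quadraticChar F (x ^ 3 - (-(n : F)) * x) : ℤ) : ZI) := by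
    push_cast; ring
  rw [e4, h2, star_neg]
  ring

end Pool.Agent.D0H69.Q4
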