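import Pool.Agent.D0H69.Q4.Rat

/-!
Project Q4, module C4 QLS: the `L`-series of `y² = x³ + 2 m x` over `ℚ`.
-/

set_option autoImplicit false
set_option linter.unusedSectionVars false

open NumberField IsDedekindDomain

namespace Pool.Agent.D0H69.Q4

open scoped Classical
open WeierstrassCurve
open Pool.Agent.Y699 hiding q4
open Pool.Agent.Y715.Z hiding cr4_mapL
open Pool.Agent.Y698 (AP min_count v_unit)
open Pool.Agent.W189.NF (aV eV redMap Ov mem_max_iff finite_res card_res redMap_eq_zero aLoc eLoc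
  redMap_surjective)
open Pool.Agent.H921R2.TatePole (nm two_le_nm)
open H385 (ZI RQ im1 nrm)
open Pool.Agent.W164.RC (tc_mul tc_star Ip Ip_spec Ip_one Ip_three dg local_poly local_two ep_hecke)
open Pool.Agent.H304R3.HK (tc HC LH bH psi psi_apply uh_psi goodH bb ee UH tc_star_mul tc_ne_zero)
open Pool.Agent.H304R2.EC.A1 (prim)
open Pool.Agent.Y696 (HBd LSeries_hasProd')
open Pool.Agent.D0H10.Q4 (S_SUP S_QLS Cc rh cQ cZ Adm)

lemma cQ_eq (m : ℕ) : cQ m = q4 ((((2 * m : ℕ) : 𝓞 ℚ)) : ℚ) := by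
  have e : (((2 * m : ℕ) : 𝓞 ℚ) : ℚ) = 2 * (m : ℚ) := by
    have h : (algebraMap (𝓞 ℚ) ℚ) ((2 * m : ℕ) : 𝓞 ℚ) = ((2 * m : ℕ) : ℚ) := map_natCast _ _
    refine h.trans ?_
    push_cast
    rfl
  rw [e]
  ext <;> simp [cZ, q4]

/-- the residue field of a place of `ℚ` -/
lemma res_card (v : HeightOneSpectrum (𝓞 ℚ)) :
    Nat.card (IsLocalRing.ResidueField (Ov v)) = (eQ v : ℕ) := by
  rw [card_res v, eQ_nm]

/-- the local factors at the bad places -/
theorem locQ_bad {m : ℕ} (hm : Adm m) (v : HeightOneSpectrum (𝓞 ℚ))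
    (hb : (eQ v : ℕ) = 2 ∨ (eQ v : ℕ) ∣ m) : aV (cQ m) v = 0 ∧ eV (cQ m) v = 0 := by
  rw [cQ_eq]
  have hsp := eQ_span v
  have hp := (eQ v).2
  have ht0 : (((eQ v : ℕ)) : 𝓞 ℚ) ≠ 0 := by exact_mod_cast hp.ne_zero
  have hm4 := Adm.mod hm
  by_cases h2 : (eQ v : ℕ) = 2
  · refine bad_of4 (t := ((eQ v : ℕ) : 𝓞 ℚ)) (r := ((-(m : ℤ) ^ 3 : ℤ) : 𝓞 ℚ)) (m := 9) ht0 hsp
      (by norm_num) ?_ ?_
    · rw [eQ_mem, h2]
      intro h
      have h3 : ((2 : ℕ) : ℤ) ∣ (m : ℤ) ^ 3 := (dvd_neg).1 h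
      have h4 := (Nat.prime_iff_prime_int.1 Nat.prime_two).dvd_of_dvd_pow h3
      omega
    · rw [h2]
      push_cast
      ring
  · have hpm : (eQ v : ℕ) ∣ m := by
      rcases hb with h | h
      · exact absurd h h2
      · exact h
    obtain ⟨c, hc⟩ := hpm
    have hpc : ¬ (eQ v : ℕ) ∣ c := by
      have h3 := hm.1
      rw [hc] at h3
      have h4 := (Nat.squarefree_mul_iff.1 h3).1
      exact (hp.coprime_iff_not_dvd).1 h4
    refine bad_of4 (t := ((eQ v : ℕ) : 𝓞 ℚ)) (r := ((-512 * (c : ℤ) ^ 3 : ℤ) : 𝓞 ℚ)) (m := 3) ht0 hsp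
      (by norm_num) ?_ ?_
    · rw [eQ_mem]
      intro h
      have hpi := Nat.prime_iff_prime_int.1 hp
      rcases hpi.dvd_or_dvd h with h3 | h3
      · have h4 : ((eQ v : ℕ) : ℤ) ∣ 2 ^ 9 := by
          have : (-512 : ℤ) = -(2 ^ 9) := by norm_num
          rw [this, dvd_neg] at h3
          exact h3
        have h5 := hpi.dvd_of_dvd_pow h4
        have h6 : (eQ v : ℕ) ∣ 2 := by exact_mod_cast h5
        exact h2 ((Nat.prime_dvd_prime_iff_eq hp Nat.prime_two).1 h6)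
      · have h5 := hpi.dvd_of_dvd_pow h3
        exact hpc (by exact_mod_cast h5)
    · conv_lhs => rw [hc]
      push_cast
      ring

/-- the local factors at the good places by counting points -/
theorem locQ_cnt {m : ℕ} (v : HeightOneSpectrum (𝓞 ℚ))
    (h2 : (eQ v : ℕ) ≠ 2) (hpm : ¬ (eQ v : ℕ) ∣ m) :
    aV (cQ m) v = (nm v : ℤ) -
      (cnf (IsLocalRing.ResidueField (Ov v)) (((2 * m : ℤ)) : IsLocalRing.ResidueField (Ov v)) : ℤ) ∧
    eV (cQ m) v = (nm v : ℤ) := by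
  have hp := (eQ v).2
  have hpi := Nat.prime_iff_prime_int.1 hp
  set δ : 𝓞 ℚ := ((2 * m : ℕ) : 𝓞 ℚ) with hδ
  have hbc : (q4 (δ : ℚ)).baseChange (v.adicCompletion ℚ) =
      q4 (algebraMap ℚ (v.adicCompletion ℚ) (δ : ℚ)) := q4_map _ _
  have hΔ : ¬ (cr4 δ).Δ ∈ v.asIdeal := by
    rw [cr4_Δ]
    have e1 : (-64 : 𝓞 ℚ) * δ ^ 3 = ((-64 * (2 * (m : ℤ)) ^ 3 : ℤ) : 𝓞 ℚ) := by
      rw [hδ]
      push_cast
      ring
    rw [e1, eQ_mem]
    intro h
    have h5 : ((eQ v : ℕ) : ℤ) ∣ 2 ^ 9 * (m : ℤ) ^ 3 := by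
      have : (-64 * (2 * (m : ℤ)) ^ 3) = -(2 ^ 9 * (m : ℤ) ^ 3) := by ring
      rw [this, dvd_neg] at h
      exact h
    rcases hpi.dvd_or_dvd h5 with h3 | h3
    · have h5 := hpi.dvd_of_dvd_pow h3
      have h6 : (eQ v : ℕ) ∣ 2 := by exact_mod_cast h5
      exact h2 ((Nat.prime_dvd_prime_iff_eq hp Nat.prime_two).1 h6)
    · have h5 := hpi.dvd_of_dvd_pow h3
      exact hpm (by exact_mod_cast h5)
  have hfin := finite_res v
  have hunit : IsUnit ((cr4 (algebraMap (𝓞 ℚ) (Ov v) δ)).Δ) := by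
    have h3 := isUnit_of_notMem' hΔ
    rw [cr4_Δ] at h3 ⊢
    rw [map_mul, map_neg, map_ofNat, map_pow] at h3
    exact h3
  obtain ⟨c1, c2⟩ := min_count (v.adicCompletionIntegers ℚ) hunit
    (W := (q4 (δ : ℚ)).baseChange (v.adicCompletion ℚ)) (by
      rw [hbc, Pool.Agent.Y715.Z.cr4_mapL, coe_comp'])
  have hAP : Nat.card (AP ((cr4 (algebraMap (𝓞 ℚ) (Ov v) δ)).map
      (IsLocalRing.residue (Ov v)))) =
      cnf (IsLocalRing.ResidueField (Ov v)) (((2 * m : ℤ)) : IsLocalRing.ResidueField (Ov v)) := by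
    unfold cnf AP
    refine Nat.card_congr (Equiv.subtypeEquivRight fun x => ?_)
    rw [cr4_map, WeierstrassCurve.Affine.equation_iff]
    unfold cr4
    have e3 : (IsLocalRing.residue (Ov v)) ((algebraMap (𝓞 ℚ) (Ov v)) δ) =
        (((2 * m : ℤ)) : IsLocalRing.ResidueField (Ov v)) := by
      rw [hδ, map_natCast, map_natCast]
      push_cast
      rfl
    rw [e3]
    simp only [zero_mul, add_zero]
  rw [cQ_eq]
  constructor
  · unfold aV
    rw [c1, hAP, card_res]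
  · unfold eV
    rw [c2, card_res]

/-- the Euler factor of the Hecke series at a prime -/
noncomputable def fH (X : ZI →* ℂ) (s : ℂ) (p : Nat.Primes) : ℂ :=
  (1 - bb (psi X) (p : ℕ) * (((p : ℕ) : ℂ) ^ (-(s - 1 / 2))) +
        ee (psi X) (p : ℕ) * (((p : ℕ) : ℂ) ^ (-(s - 1 / 2))) ^ 2)⁻¹

lemma fH_odd {q : ZI} {X : ZI →* ℂ} (H : HC q X) (s : ℂ) {p : Nat.Primes} (h2 : (p : ℕ) ≠ 2) :
    fH X s p = (∏ z ∈ Ip p, (1 - X z * tc z * ((nrm z : ℕ) : ℂ) ^ (-s)))⁻¹ := by
  unfold fH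
  rw [local_poly (uh_psi _ _ H) p.2 h2]
  congr 1
  refine Finset.prod_congr rfl fun z hz => ?_
  rw [gpsi_term hz]

lemma fH_two {q : ZI} {X : ZI →* ℂ} (H : HC q X) (hX : X pi1 = 0) (s : ℂ) {p : Nat.Primes}
    (h2 : (p : ℕ) = 2) : fH X s p = 1 := by
  unfold fH
  rw [h2, local_two (uh_psi _ _ H)]
  have h4 : psi X ⟨1, 1⟩ = 0 := by
    rw [psi_apply _ (by decide)]
    have h5 : X ⟨1, 1⟩ = 0 := hX
    rw [h5, zero_mul]
  rw [h4, zero_mul, sub_zero, inv_one]

lemma ip_nat_dvd {p : ℕ} (hp : p.Prime) {z : ZI} (hz : z ∈ Ip p) (n : ℤ) :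
    z ∣ (n : ZI) ↔ (p : ℤ) ∣ n := by
  constructor
  · intro h
    by_contra hn
    exact q4_int_not_dvd hp (PP_ip hp hz) (Ip_spec hp hz).2.2.2 hn h
  · rintro ⟨c, hc⟩
    rw [hc]
    push_cast
    exact (Ip_spec hp hz).2.2.2.mul_right _

/-- the local factors -/
theorem locQ (hS : S_SUP) {m : ℕ} (hm : Adm m) {X : ZI →* ℂ} (H : HC (8 * (m : ZI)) X)
    (hX : ∀ a, Cc a → X a =
      (starRingEnd ℂ) (tc (rh a * c4 (fam (m : ZI)) Finset.univ on1 a)))
    (v : HeightOneSpectrum (𝓞 ℚ)) (s : ℂ) :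
    HBd (aV (cQ m) v) (eV (cQ m) v) (nm v) ∧
      (1 - (aV (cQ m) v : ℂ) * (nm v : ℂ) ^ (-s) +
        (eV (cQ m) v : ℂ) * ((nm v : ℂ) ^ (-s)) ^ 2)⁻¹ = fH X s (eQ v) := by
  have hps := ps_nat hm
  have hp := (eQ v).2
  have hX0 : X pi1 = 0 := X_zero H pi1_prime ((pi1_two.trans ⟨4, by norm_num⟩).mul_right _)
  by_cases hb : (eQ v : ℕ) = 2 ∨ (eQ v : ℕ) ∣ m
  · have h0 := locQ_bad hm v hb
    refine ⟨Or.inl h0, ?_⟩
    rw [h0.1, h0.2]
    have e1 : fH X s (eQ v) = 1 := by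
      by_cases h2 : (eQ v : ℕ) = 2
      · exact fH_two H hX0 s h2
      · have hpm : (eQ v : ℕ) ∣ m := by
          rcases hb with h | h
          · exact absurd h h2
          · exact h
        rw [fH_odd H s h2, Finset.prod_eq_one, inv_one]
        intro z hz
        have h5 : z ∣ ((m : ℤ) : ZI) := (ip_nat_dvd hp hz m).2 (by exact_mod_cast hpm)
        have h6 : X z = 0 := by
          apply X_zero H (Ip_spec hp hz).2.1
          rw [Int.cast_natCast] at h5
          exact h5.mul_left _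
        rw [h6, zero_mul, zero_mul, sub_zero]
    rw [e1]
    simp
  · push Not at hb
    obtain ⟨h2, hpm⟩ := hb
    obtain ⟨ha, he⟩ := locQ_cnt v h2 hpm
    have hfin := finite_res v
    have hnm : (nm v : ℕ) = (eQ v : ℕ) := eQ_nm v
    have hcard := res_card v
    have hnd : ∀ z ∈ Ip (eQ v), ¬ z ∣ (m : ZI) := by
      intro z hz h
      rw [← Int.cast_natCast m, ip_nat_dvd hp hz] at h
      exact hpm (by exact_mod_cast h)
    have hnd2 : ∀ z ∈ Ip (eQ v), ¬ z ∣ ((2 * m : ℤ) : ZI) := by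
      intro z hz h
      rw [ip_nat_dvd hp hz] at h
      have hpi := Nat.prime_iff_prime_int.1 hp
      rcases hpi.dvd_or_dvd h with h3 | h3
      · have h6 : (eQ v : ℕ) ∣ 2 := by exact_mod_cast h3
        exact h2 ((Nat.prime_dvd_prime_iff_eq hp Nat.prime_two).1 h6)
      · exact hpm (by exact_mod_cast h3)
    have hcst : ((2 * m : ℤ) : ZI) = 2 * (m : ZI) := by push_cast; rfl
    have h4 : (eQ v : ℕ) % 4 = 1 ∨ (eQ v : ℕ) % 4 = 3 := by
      rcases hp.eq_two_or_odd with h | h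
      · exact absurd h h2
      · omega
    rcases h4 with h1 | h3
    · obtain ⟨x, hxm, hxp, hxx, hn, hI⟩ := Ip_one hp h1
      have hxI : x ∈ Ip (eQ v) := by rw [hI]; simp
      have hxI' : star x ∈ Ip (eQ v) := by rw [hI]; simp
      have hPx : PP x := PP_ip hp hxI
      have hc := congrArg tc (cnf_one (k := IsLocalRing.ResidueField (Ov v)) hPx hn hcard (2 * m)
        (hnd2 x hxI))
      rw [hcst, ← hnm, ← ha, tc_int, tc_add, tc_mul, tc_mul, tc_star, tc_star] at hc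
      have hX1 := X_prime hS jj hps H hX hPx (hnd x hxI)
      have hX2 := X_prime hS jj hps H hX hPx.star (hnd _ hxI')
      have hq : Pool.Agent.Y699.q4 (star x) (-(2 * (m : ZI))) =
          star (Pool.Agent.Y699.q4 x (-(2 * (m : ZI)))) := by
        rw [← q4_star hPx]
        congr 1
        rw [star_neg, star_mul, star_natCast, star_ofNat, mul_comm]
      rw [hq, tc_star, Complex.conj_conj] at hX2
      set q := Pool.Agent.Y699.q4 x (-(2 * (m : ZI))) with hqd
      have hq1 : tc q * (starRingEnd ℂ) (tc q) = 1 := by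
        rw [← tc_star, ← tc_mul, unit_star_mul (q4_norm hPx ?_), tc_one]
        rw [dvd_neg, ← hcst]
        exact hnd2 x hxI
      have hx1 : tc x * (starRingEnd ℂ) (tc x) = (nm v : ℂ) := by
        rw [← tc_star, ← tc_mul, hxx, hnm]
        unfold tc
        simp
      constructor
      · refine Or.inr ⟨(starRingEnd ℂ) (tc q) * tc x, ?_, ?_, ?_⟩
        · rw [hc, map_mul, Complex.conj_conj]
        · rw [he, map_mul, Complex.conj_conj]
          push_cast
          linear_combination (-(nm v : ℂ)) * hq1 - (tc q * (starRingEnd ℂ) (tc q)) * hx1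
        · rw [map_mul, Complex.conj_conj]
          linear_combination ((nm v : ℂ)) * hq1 + (tc q * (starRingEnd ℂ) (tc q)) * hx1
      · rw [fH_odd H s h2, hI, Finset.prod_insert (by simpa using hxm), Finset.prod_singleton,
          hX1, hX2, nrm_star, hn, hc, he, tc_star, ← hnm]
        congr 1
        push_cast
        linear_combination (-((nm v : ℂ) ^ (-s)) ^ 2 * (nm v : ℂ)) * hq1 -
          (((nm v : ℂ) ^ (-s)) ^ 2 * tc q * (starRingEnd ℂ) (tc q)) * hx1
    · have hI := Ip_three h3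
      have hxI : -((eQ v : ℕ) : ZI) ∈ Ip (eQ v) := by rw [hI]; simp
      have hPx : PP (-((eQ v : ℕ) : ZI)) := PP_ip hp hxI
      have hc : cnf (IsLocalRing.ResidueField (Ov v)) ((2 * m : ℤ) : IsLocalRing.ResidueField (Ov v)) =
          nm v := by
        rw [cnf_three (by rw [hcard]; exact h3), hcard, hnm]
      have ha0 : aV (cQ m) v = 0 := by rw [ha, hc]; ring
      have hq : Pool.Agent.Y699.q4 (-((eQ v : ℕ) : ZI)) (-(2 * (m : ZI))) = 1 := by
        have h5 := Rp_rat hp (m := -(2 * m)) (by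
          intro h
          rw [dvd_neg] at h
          exact hnd2 _ hxI ((ip_nat_dvd hp hxI _).2 h))
        unfold Rp at h5
        rw [hI, Finset.prod_singleton] at h5
        rw [← h5]
        congr 1
        push_cast
        rfl
      have hX1 := X_prime hS jj hps H hX hPx (hnd _ hxI)
      rw [hq, tc_one, map_one] at hX1
      constructor
      · refine Or.inr ⟨Complex.I * (Real.sqrt (nm v) : ℂ), ?_, ?_, ?_⟩
        · rw [ha0, map_mul, Complex.conj_I, Complex.conj_ofReal]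
          push_cast
          ring
        · rw [he, map_mul, Complex.conj_I, Complex.conj_ofReal]
          have h6 : ((Real.sqrt (nm v) : ℝ) : ℂ) * ((Real.sqrt (nm v) : ℝ) : ℂ) = (nm v : ℂ) := by
            rw [← Complex.ofReal_mul, Real.mul_self_sqrt (Nat.cast_nonneg _)]
            simp
          push_cast
          linear_combination (-1 : ℂ) * h6 + ((Real.sqrt (nm v) : ℝ) : ℂ) ^ 2 * Complex.I_sq
        · rw [map_mul, Complex.conj_I, Complex.conj_ofReal]
          have h6 : ((Real.sqrt (nm v) : ℝ) : ℂ) * ((Real.sqrt (nm v) : ℝ) : ℂ) = (nm v : ℂ) := by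
            rw [← Complex.ofReal_mul, Real.mul_self_sqrt (Nat.cast_nonneg _)]
            simp
          linear_combination h6 - ((Real.sqrt (nm v) : ℝ) : ℂ) ^ 2 * Complex.I_sq
      · rw [fH_odd H s h2, hI, Finset.prod_singleton, hX1, ha0, he, nrm_inert, ← hnm]
        congr 1
        have h7 : tc (-((nm v : ℕ) : ZI)) = -(nm v : ℂ) := by
          unfold tc
          simp
        rw [h7]
        have h8 : (((nm v * nm v : ℕ)) : ℂ) ^ (-s) = ((nm v : ℂ) ^ (-s)) ^ 2 := by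
          rw [Nat.cast_mul, Complex.natCast_mul_natCast_cpow, sq]
        rw [h8]
        push_cast
        ring

/-- **the `L`-series over the rational numbers** -/
theorem qls : S_SUP → S_QLS := by
  intro hS m hm X H hX s hs
  obtain ⟨h1, h2⟩ := LSeries_hasProd' (cQ m) (fun v => (locQ hS hm H hX v s).1)
    (s := s) (by linarith)
  refine ⟨h1, ?_⟩
  obtain ⟨A, hA, hgood⟩ := goodH
  have hre : 1 < (s - 1 / 2).re := by
    have : (s - 1 / 2).re = s.re - 1 / 2 := by simp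
    rw [this]; linarith
  have h3 := ep_hecke (uh_psi _ _ H) (s - 1 / 2) _ ((hgood _ _ H).2.1 _ hre)
  have h4 : HasProd (fun v : HeightOneSpectrum (𝓞 ℚ) => fH X s (eQ v)) (LH X (s - 1 / 2)) :=
    (eQ.hasProd_iff (f := fH X s)).2 h3
  exact h4.unique (h2.congr_fun fun v => ((locQ hS hm H hX v s).2).symm)

end Pool.Agent.D0H69.Q4
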